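import Pool.Agent.Q309.PO.Main
import Pool.Agent.Q309.TP.Fin
import Pool.Agent.Q309.DF.Main

/-!
Sequences of points over fields, and points over difference fields, given by linear difference
equations whose coefficients are polynomials along the orbit of a polynomial map.
-/

set_option autoImplicit false

namespace Pool.Agent.Q309.PO

open MvPolynomial Filter
open Pool.Agent.Q309.DU
open Pool.Agent.Q309.TP (Same Few few_of)
open Pool.Agent.Q309.DF (exists_sub pow_fix pow_inj rel_embed)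
open Pool.Agent.Q1.SL

variable {n : ℕ}

/-- The homogeneous coordinates of the points `x 0, ..., x B` over the field `L` satisfy nontrivial
linear difference equations `∑ P_k (t m) x (m + k) j = 0`, `m ≤ B`, of order at most `r`, the
coefficients are values of polynomials over `L` of degree at most `e` at different points `t m` of an
orbit `t (m + 1) = ρ (t m)` of a polynomial `ρ` over `L` of degree at most `q` (for instance
`t m = m`, `t m = c ^ m`, `t m = c ^ (2 ^ m)`). -/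
structure OSeq {L : Type} [Field L] (r e q B : ℕ) (x : ℕ → Fin (n + 1) → L) : Prop where
  ne : ∀ m ≤ B, x m ≠ 0
  eqn : ∃ (t : ℕ → L) (ρ : Polynomial L), ρ.natDegree ≤ q ∧ (∀ m, t (m + 1) = ρ.eval (t m)) ∧
    (∀ i j, i < j → j ≤ B → t i ≠ t j) ∧ ∀ j, ∃ P : ℕ → Polynomial L, (∃ k ≤ r, P k ≠ 0) ∧
      (∀ k, (P k).natDegree ≤ e) ∧
        ∀ m ≤ B, ∑ k ∈ Finset.range (r + 1), (P k).eval (t m) * x (m + k) j = 0

/-- Each of the `n + 1` sequences of homogeneous coordinates satisfies a nontrivial recurrence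
`∑ P_k (t m) x (m + k) j = 0` of order at most `r`, the coefficients are values of polynomials of
degree at most `e` over `L` at different points `t m` with `t (m + 1) = ρ (t m)`, where `ρ` is a
polynomial over `L` of degree at most `q`. -/
def ORec {L : Type} [Field L] (r e q : ℕ) (x : ℕ → Fin (n + 1) → L) : Prop :=
  ∃ (t : ℕ → L) (ρ : Polynomial L), ρ.natDegree ≤ q ∧ (∀ m, t (m + 1) = ρ.eval (t m)) ∧
    Function.Injective t ∧ ∀ j, ∃ P : ℕ → Polynomial L, (∃ k ≤ r, P k ≠ 0) ∧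
      (∀ k, (P k).natDegree ≤ e) ∧
      ∀ m, ∑ k ∈ Finset.range (r + 1), (P k).eval (t m) * x (m + k) j = 0

theorem ORec.oseq {L : Type} [Field L] {r e q : ℕ} {x : ℕ → Fin (n + 1) → L} (h : ORec r e q x)
    (hx : ∀ m, x m ≠ 0) (B : ℕ) : OSeq r e q B x := by
  obtain ⟨t, ρ, h0, h1, h2, h3⟩ := h
  refine ⟨fun m _ => hx m, t, ρ, h0, h1, fun i j hij _ h4 => absurd (h2 h4) hij.ne, fun j => ?_⟩
  obtain ⟨P, h4, h5, h6⟩ := h3 j
  exact ⟨P, h4, h5, fun m _ => h6 m⟩

theorem eval_ring {L : Type} [Field L] (τ : L →+* ℂ) (P : Polynomial L) (a : L) :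
    (P.map τ).eval (τ a) = τ (P.eval a) := by
  rw [Polynomial.eval_map, Polynomial.eval₂_at_apply]

theorem wseq_of {L : Type} [Field L] {r e q B : ℕ} {x : ℕ → Fin (n + 1) → L}
    (h : OSeq r e q B x) (τ : L →+* ℂ) {S : Set (MvPolynomial (Fin (n + 1)) ℂ)}
    (hS : ∀ m ≤ B, ∀ F ∈ S, eval (fun j => τ (x m j)) F = 0) :
    ∃ t : ℕ → ℂ, WSeq r e q S B t fun m j => τ (x m j) := by
  obtain ⟨t, ρ, h0, h1, h2, h3⟩ := h.eqn
  refine ⟨fun m => τ (t m), ⟨⟨ρ.map τ, Polynomial.natDegree_map_le.trans h0, fun m => by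
      rw [eval_ring, ← h1]⟩,
    fun i j hij hj h4 => h2 i j hij hj (τ.injective h4), fun m hm h4 => h.ne m hm ?_,
    fun j => ?_, hS⟩⟩
  · funext j
    have h5 := congrFun h4 j
    exact (map_eq_zero τ).1 h5
  · obtain ⟨P, ⟨k0, hk0, hPk⟩, hPe, hrec⟩ := h3 j
    refine ⟨fun k => (P k).map τ, ⟨k0, hk0, ?_⟩, fun k => ?_, fun m hm => ?_⟩
    · rwa [Ne, Polynomial.map_eq_zero_iff τ.injective]
    · exact (Polynomial.natDegree_map_le).trans (hPe k)
    · have h4 := congrArg τ (hrec m hm)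
      rw [map_zero, map_sum] at h4
      rw [← h4]
      refine Finset.sum_congr rfl fun k _ => ?_
      rw [map_mul, eval_ring]

/-- two equal points -/
theorem two_of_few {N : ℕ} {x : ℕ → Fin (n + 1) → ℂ} (hne : ∀ m ≤ N, x m ≠ 0)
    (h : ∃ I : Finset ℕ, I.card ≤ N ∧ ∀ m ≤ N, ∃ i ∈ I, i ≤ m ∧ Same (x i) (x m)) :
    ∃ i j, i < j ∧ j ≤ N ∧ Same (x i) (x j) := by
  classical
  obtain ⟨I, hI, hIm⟩ := h
  choose! g hg using hIm
  obtain ⟨a, ha, b, hb, hab, hgab⟩ := Finset.exists_ne_map_eq_of_card_lt_of_maps_to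
    (s := Finset.range (N + 1)) (t := I) (by rw [Finset.card_range]; omega)
    (f := g) (fun m hm => (hg m (by simpa [Nat.lt_succ_iff] using hm)).1)
  have ha' : a ≤ N := by simpa [Nat.lt_succ_iff] using ha
  have hb' : b ≤ N := by simpa [Nat.lt_succ_iff] using hb
  have key : ∀ a b, a ≤ N → b ≤ N → g a = g b → Same (x a) (x b) := by
    intro a b ha hb hgab
    have h1 := (hg a ha).2.2
    have h2 := (hg b hb).2.2
    rw [← hgab] at h2
    exact h1.symm.trans (hne _ ((hg a ha).2.1.trans ha)) h2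
  rcases lt_or_gt_of_ne hab with h1 | h1
  · exact ⟨a, b, h1, hb', key a b ha' hb' hgab⟩
  · exact ⟨b, a, h1, ha', key b a hb' ha' hgab.symm⟩

/-- **Two equal points**, uniformly. -/
theorem eq_uniform (n D r e q : ℕ) : ∃ N : ℕ, ∀ S : Set (MvPolynomial (Fin (n + 1)) ℂ),
    (∀ F ∈ S, ∃ e, e ≤ D ∧ F.IsHomogeneous e) → ∀ G : MvPolynomial (Fin (n + 1)) ℂ,
      (∃ e, e ≤ D ∧ G.IsHomogeneous e) → RatIn S G N → ∀ (t : ℕ → ℂ)
        (x : ℕ → Fin (n + 1) → ℂ), WSeq r e q S N t x → (∀ m ≤ N, eval (x m) G ≠ 0) →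
          ∃ i j, i < j ∧ j ≤ N ∧ Same (x i) (x j) := by
  obtain ⟨N, hN⟩ := pts_uniform n D r e q
  exact ⟨N, fun S hS G hG hrat t x hx hx0 => two_of_few hx.ne (hN S hS G hG hrat N t x hx hx0)⟩

/-- **Two equal points**, for one variety. -/
theorem eq_special (S : Set (MvPolynomial (Fin (n + 1)) ℂ))
    (hS : ∀ F ∈ S, ∃ e, F.IsHomogeneous e) (r e q : ℕ) : ∃ N : ℕ,
    ∀ G : MvPolynomial (Fin (n + 1)) ℂ, (∃ e, G.IsHomogeneous e) → RatIn S G N →
      ∀ (t : ℕ → ℂ) (x : ℕ → Fin (n + 1) → ℂ), WSeq r e q S N t x →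
        (∀ m ≤ N, eval (x m) G ≠ 0) → ∃ i j, i < j ∧ j ≤ N ∧ Same (x i) (x j) := by
  obtain ⟨N, hN⟩ := pts_special S hS r e q
  exact ⟨N, fun G hG hrat t x hx hx0 => two_of_few hx.ne (hN G hG hrat N t x hx hx0)⟩

/-- Let `σ` be an endomorphism of the extension `L` of `ℂ`. The point of the projective `n`-space over
`L` with the homogeneous coordinates `x` is given by linear difference equations
`∑ P_k(t) σ^k(x_j) = 0` of order at most `r`, where the `P_k` are polynomials of degree at most `e`,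
not all zero, whose coefficients are fixed by `σ`, and `t` is an element of `L` with
`σ(t) = ρ(t)`, where `ρ` is a polynomial of degree at most `q` whose coefficients are fixed by
`σ`. -/
structure OPt {L : Type} [Field L] [Algebra ℂ L] (r e q : ℕ) (σ : L →ₐ[ℂ] L) (t : L)
    (x : Fin (n + 1) → L) : Prop where
  ne : x ≠ 0
  pol : ∃ ρ : Polynomial L, ρ.natDegree ≤ q ∧ (∀ i, σ (ρ.coeff i) = ρ.coeff i) ∧ σ t = ρ.eval t
  eqn : ∀ j, ∃ P : ℕ → Polynomial L, (∃ k ≤ r, P k ≠ 0) ∧ (∀ k, (P k).natDegree ≤ e) ∧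
    (∀ k i, σ ((P k).coeff i) = (P k).coeff i) ∧
      ∑ k ∈ Finset.range (r + 1), (P k).eval t * (σ ^ k) (x j) = 0

theorem pow_eval {L : Type} [Field L] [Algebra ℂ L] {σ : L →ₐ[ℂ] L} {P : Polynomial L}
    (hP : ∀ i, σ (P.coeff i) = P.coeff i) (m : ℕ) (a : L) :
    (σ ^ m) (P.eval a) = P.eval ((σ ^ m) a) := by
  have h1 : P.map ((σ ^ m : L →ₐ[ℂ] L) : L →+* L) = P := by
    ext i
    rw [Polynomial.coeff_map]
    exact pow_fix (hP i) m
  have h2 := Polynomial.eval₂_at_apply ((σ ^ m : L →ₐ[ℂ] L) : L →+* L) (p := P) a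
  rw [← Polynomial.eval_map, h1] at h2
  exact h2.symm

/-- **From sequences to difference fields.** -/
theorem core {r e q d : ℕ} (S0 : Finset (MvPolynomial (Fin (n + 1)) ℂ))
    (G : MvPolynomial (Fin (n + 1)) ℂ)
    (hruns : ∀ (t : ℕ → ℂ) (x : ℕ → Fin (n + 1) → ℂ), WSeq r e q (S0 : Set _) d t x →
      (∀ m ≤ d, eval (x m) G ≠ 0) → ∃ i j, i < j ∧ j ≤ d ∧ Same (x i) (x j))
    {L : Type} [Field L] [Algebra ℂ L] {σ : L →ₐ[ℂ] L} {t : L} {x : Fin (n + 1) → L}
    (hx : OPt r e q σ t x) (ht : ∀ k, 0 < k → k ≤ d → (σ ^ k) t ≠ t)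
    (hX : ∀ F ∈ S0, aeval x F = 0) :
    (∃ k, 0 < k ∧ k ≤ d ∧ ∀ u v, (σ ^ k) (x u) * x v = (σ ^ k) (x v) * x u) ∨ aeval x G = 0 := by
  classical
  obtain ⟨ρ, hρd, hρc, hρ⟩ := hx.pol
  choose P hP0 hPd hPc hP using hx.eqn
  -- countable fields
  obtain ⟨k0, _, _, hk0, -, hcoef⟩ := exists_ctbleK (k := ℂ)
    ((⋃ F ∈ S0, (F.coeffs : Set ℂ)) ∪ (G.coeffs : Set ℂ)) (by
      refine Set.Countable.union ?_ G.coeffs.countable_toSet
      exact Set.Countable.biUnion S0.countable_toSet fun F _ => F.coeffs.countable_toSet)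
  have hk0' : Countable k0 := hk0
  have hliftF : ∀ F ∈ S0, ∃ F' : MvPolynomial (Fin (n + 1)) k0, map (algebraMap k0 ℂ) F' = F :=
    fun F hF => mem_range_map_iff_coeffs_subset.2
      fun c hc => hcoef c (Or.inl (Set.mem_biUnion (x := F) hF hc))
  obtain ⟨G', hG'⟩ : ∃ G' : MvPolynomial (Fin (n + 1)) k0, map (algebraMap k0 ℂ) G' = G :=
    mem_range_map_iff_coeffs_subset.2 fun c hc => hcoef c (Or.inr hc)
  let _ : Algebra k0 L := ((algebraMap ℂ L).comp (algebraMap k0 ℂ)).toAlgebra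
  have _ : IsScalarTower k0 ℂ L := IsScalarTower.of_algebraMap_eq fun _ => rfl
  let C1 : Set L := (⋃ (m : ℕ) (j : Fin (n + 1)), {(σ ^ m) (x j)}) ∪
    ((⋃ m : ℕ, {(σ ^ m) t}) ∪ ((⋃ i : ℕ, {ρ.coeff i}) ∪
      ⋃ (j : Fin (n + 1)) (k : ℕ) (i : ℕ), {(P j k).coeff i}))
  have hC1 : C1.Countable := by
    refine Set.Countable.union ?_ (Set.Countable.union ?_ (Set.Countable.union ?_ ?_))
    · exact Set.countable_iUnion fun m => Set.countable_iUnion fun j => Set.countable_singleton _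
    · exact Set.countable_iUnion fun m => Set.countable_singleton _
    · exact Set.countable_iUnion fun m => Set.countable_singleton _
    · exact Set.countable_iUnion fun j => Set.countable_iUnion fun k =>
        Set.countable_iUnion fun i => Set.countable_singleton _
  obtain ⟨L0, _, _, _, ι, hι⟩ := exists_sub (k0 := k0) C1 hC1
  have hιinj : Function.Injective ι := ι.toRingHom.injective
  choose x0 hx0 using fun (m : ℕ) (j : Fin (n + 1)) => hι ((σ ^ m) (x j)) (by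
    refine Or.inl ?_
    simp only [Set.mem_iUnion]
    exact ⟨m, j, rfl⟩)
  choose t0 ht0 using fun m : ℕ => hι ((σ ^ m) t) (by
    refine Or.inr (Or.inl ?_)
    simp only [Set.mem_iUnion]
    exact ⟨m, rfl⟩)
  obtain ⟨ρ0, hρ0⟩ : ∃ Q : Polynomial L0, Q.map (ι : L0 →+* L) = ρ := by
    rw [← Polynomial.mem_lifts, Polynomial.lifts_iff_coeff_lifts]
    intro i
    obtain ⟨a, ha⟩ := hι (ρ.coeff i) (by
      refine Or.inr (Or.inr (Or.inl ?_))
      simp only [Set.mem_iUnion]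
      exact ⟨i, rfl⟩)
    exact ⟨a, ha⟩
  have hPl : ∀ j k, ∃ Q : Polynomial L0, Q.map (ι : L0 →+* L) = P j k := by
    intro j k
    rw [← Polynomial.mem_lifts, Polynomial.lifts_iff_coeff_lifts]
    intro i
    obtain ⟨a, ha⟩ := hι ((P j k).coeff i) (by
      refine Or.inr (Or.inr (Or.inr ?_))
      simp only [Set.mem_iUnion]
      exact ⟨j, k, i, rfl⟩)
    exact ⟨a, ha⟩
  choose P0 hP0' using hPl
  have hιev : ∀ (Q : Polynomial L0) (a : L0), (Q.map (ι : L0 →+* L)).eval (ι a) = ι (Q.eval a) :=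
    fun Q a => by
      rw [Polynomial.eval_map]
      exact Polynomial.eval₂_at_apply (ι : L0 →+* L) (p := Q) a
  have hseq : OSeq r e q d x0 := by
    refine ⟨fun m _ h0 => hx.ne ?_, t0, ρ0, ?_, fun m => ?_, fun i j hij hj h0 => ?_, fun j => ?_⟩
    · funext j
      have h1 := congrArg ι (congrFun h0 j)
      rw [hx0, Pi.zero_apply, map_zero] at h1
      exact pow_inj σ m (by rw [h1, Pi.zero_apply, map_zero])
    · rwa [← hρ0, Polynomial.natDegree_map] at hρd
    · apply hιinj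
      rw [ht0, ← hιev, ht0, hρ0, pow_succ, AlgHom.mul_apply, hρ, pow_eval hρc]
    · have h1 := congrArg ι h0
      rw [ht0, ht0] at h1
      refine ht (j - i) (by omega) (by omega) (pow_inj σ i ?_)
      rw [h1, ← AlgHom.mul_apply, ← pow_add, show i + (j - i) = j by omega]
    · obtain ⟨k, hk, hPk⟩ := hP0 j
      refine ⟨P0 j, ⟨k, hk, fun h0 => hPk ?_⟩, fun k => ?_, fun m _ => ?_⟩
      · rw [← hP0', h0, Polynomial.map_zero]
      · have h1 := hPd j k
        rwa [← hP0', Polynomial.natDegree_map] at h1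
      · apply hιinj
        rw [map_zero, map_sum]
        have h1 := congrArg (σ ^ m) (hP j)
        rw [map_zero, map_sum] at h1
        rw [← h1]
        refine Finset.sum_congr rfl fun k _ => ?_
        rw [map_mul, map_mul, hx0, pow_eval (hPc j k), pow_add, AlgHom.mul_apply, ← hP0' j k,
          ← ht0, hιev]
  obtain ⟨τ⟩ := rel_embed k0 L0
  have hval : ∀ (F' : MvPolynomial (Fin (n + 1)) k0) (m : ℕ),
      eval (fun j => τ (x0 m j)) (map (algebraMap k0 ℂ) F') = 0 ↔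
        aeval x (map (algebraMap k0 ℂ) F') = 0 := by
    intro F' m
    have h1 : eval (fun j => τ (x0 m j)) (map (algebraMap k0 ℂ) F') = τ (aeval (x0 m) F') := by
      rw [eval_map, MvPolynomial.comp_aeval_apply, aeval_def]
    have h2 : ι (aeval (x0 m) F') = (σ ^ m) (aeval x (map (algebraMap k0 ℂ) F')) := by
      rw [MvPolynomial.comp_aeval_apply, MvPolynomial.comp_aeval_apply,
        MvPolynomial.aeval_map_algebraMap]
      congr 1
      congr 1
      funext j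
      exact hx0 m j
    rw [h1, map_eq_zero, ← map_eq_zero ι, h2]
    exact ⟨fun h => pow_inj σ m (h.trans (map_zero _).symm), fun h => by rw [h, map_zero]⟩
  by_cases hG0 : aeval x G = 0
  · exact Or.inr hG0
  left
  obtain ⟨t1, ht1⟩ := wseq_of (S := (S0 : Set (MvPolynomial (Fin (n + 1)) ℂ))) hseq (τ : L0 →+* ℂ)
    fun m _ F hF => by
      obtain ⟨F', rfl⟩ := hliftF F hF
      exact (hval F' m).2 (hX _ hF)
  obtain ⟨i, j, hij, hj, h⟩ := hruns t1 _ ht1 fun m _ h0 => hG0 (by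
    subst hG'
    exact (hval G' m).1 h0)
  refine ⟨j - i, by omega, by omega, fun u v => ?_⟩
  have h0 : x0 i v * x0 j u = x0 i u * x0 j v := by
    apply (τ : L0 →+* ℂ).injective
    rw [map_mul, map_mul]
    exact h v u
  have h1 := congrArg ι h0
  rw [map_mul, map_mul, hx0, hx0, hx0, hx0, show j = i + (j - i) by omega, pow_add,
    AlgHom.mul_apply, AlgHom.mul_apply, ← map_mul, ← map_mul] at h1
  have h2 := pow_inj σ i h1
  linear_combination h2

/-- **Difference fields**, uniformly in the variety, the field and the point. -/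
theorem opt_uniform (n D r e q : ℕ) : ∃ d : ℕ, ∀ S : Set (MvPolynomial (Fin (n + 1)) ℂ),
    (∀ F ∈ S, ∃ e, e ≤ D ∧ F.IsHomogeneous e) → ∀ (L : Type) [Field L] [Algebra ℂ L]
      (σ : L →ₐ[ℂ] L) (t : L) (x : Fin (n + 1) → L), OPt r e q σ t x →
        (∀ k, 0 < k → k ≤ d → (σ ^ k) t ≠ t) → (∀ F ∈ S, aeval x F = 0) →
        (∃ k, 0 < k ∧ k ≤ d ∧ ∀ u v, (σ ^ k) (x u) * x v = (σ ^ k) (x v) * x u) ∨
          ∀ G : MvPolynomial (Fin (n + 1)) ℂ, (∃ e, e ≤ D ∧ G.IsHomogeneous e) →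
            RatIn S G d → aeval x G = 0 := by
  obtain ⟨d, hd⟩ := eq_uniform n D r e q
  refine ⟨d, fun S hS L _ _ σ t x hx ht hX => ?_⟩
  by_cases hper : ∃ k, 0 < k ∧ k ≤ d ∧ ∀ u v, (σ ^ k) (x u) * x v = (σ ^ k) (x v) * x u
  · exact Or.inl hper
  · refine Or.inr fun G hG hrat => ?_
    obtain ⟨S0, hS0, hS0'⟩ := exists_finite_forms S
    exact (core S0 G (fun t1 x1 hx1 h0 => hd S0 (fun F hF => hS F (hS0 F hF)) G hG
      (fun p hp1 hp2 hp3 => hrat p hp1 (hS0' _ p hp2) hp3) t1 x1 hx1 h0) hx ht fun F hF =>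
      hX F (hS0 F hF)).resolve_left hper

/-- **Difference fields**, for one variety and forms of arbitrary degree. -/
theorem opt_special (S : Set (MvPolynomial (Fin (n + 1)) ℂ))
    (hS : ∀ F ∈ S, ∃ e, F.IsHomogeneous e) (r e q : ℕ) : ∃ d : ℕ,
    ∀ (L : Type) [Field L] [Algebra ℂ L]
      (σ : L →ₐ[ℂ] L) (t : L) (x : Fin (n + 1) → L), OPt r e q σ t x →
        (∀ k, 0 < k → k ≤ d → (σ ^ k) t ≠ t) → (∀ F ∈ S, aeval x F = 0) →
        (∃ k, 0 < k ∧ k ≤ d ∧ ∀ u v, (σ ^ k) (x u) * x v = (σ ^ k) (x v) * x u) ∨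
          ∀ G : MvPolynomial (Fin (n + 1)) ℂ, (∃ e, G.IsHomogeneous e) →
            RatIn S G d → aeval x G = 0 := by
  obtain ⟨S0, hS0, hS0'⟩ := exists_finite_forms S
  obtain ⟨d, hd⟩ := eq_special (S0 : Set (MvPolynomial (Fin (n + 1)) ℂ))
    (fun F hF => hS F (hS0 F hF)) r e q
  refine ⟨d, fun L _ _ σ t x hx ht hX => ?_⟩
  by_cases hper : ∃ k, 0 < k ∧ k ≤ d ∧ ∀ u v, (σ ^ k) (x u) * x v = (σ ^ k) (x v) * x u
  · exact Or.inl hper
  · refine Or.inr fun G hG hrat => ?_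
    exact (core S0 G (fun t1 x1 hx1 h0 => hd G hG
      (fun p hp1 hp2 hp3 => hrat p hp1 (hS0' _ p hp2) hp3) t1 x1 hx1 h0) hx ht fun F hF =>
      hX F (hS0 F hF)).resolve_left hper

end Pool.Agent.Q309.PO
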