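import Pool.Agent.Q309.PO.Fld
import Pool.Agent.Q309.DU.UniF

/-!
Entire curves given by linear functional equations whose coefficients are polynomials in an entire
solution of `t ∘ σ = ρ ∘ t`, `ρ` a polynomial.
-/

set_option autoImplicit false

namespace Pool.Agent.Q309.PO

open Filter Topology Set MvPolynomial
open scoped LinearAlgebra.Projectivization
open Pool.Agent.TH143.EL
open Pool.Agent.Y189.DC (NCE Gnr gnr_orbit mero_zero pigeon holMap_ext' no_fixed)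
open Pool.Agent.Q309.DU
open Pool.Agent.Q309.TP (Same)
open Pool.Agent.Q1.SL

variable {n : ℕ}

/-- **The main theorem on entire curves.** -/
theorem pla_main {σ t : ℂ → ℂ} (hσ : NCE σ) (ht : Differentiable ℂ t) {ρ : Polynomial ℂ} {q : ℕ}
    (hρ : ρ.natDegree ≤ q) (hρt : ∀ z, t (σ z) = ρ.eval (t z)) {B : ℕ}
    (hord : ∀ k, 0 < k → k ≤ B → ∃ z, t (σ^[k] z) ≠ t z)
    {S : Set (MvPolynomial (Fin (n + 1)) ℂ)} (hS : ∀ F ∈ S, ∃ e, F.IsHomogeneous e)
    {G : MvPolynomial (Fin (n + 1)) ℂ} (hG : ∃ e, G.IsHomogeneous e) {r e : ℕ}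
    (huni : ∀ (t : ℕ → ℂ) (x : ℕ → Fin (n + 1) → ℂ), WSeq r e q S B t x →
      (∀ m ≤ B, eval (x m) G ≠ 0) → ∃ i j, i < j ∧ j ≤ B ∧ Same (x i) (x j))
    {f : ℂ → ℙ ℂ (Fin (n + 1) → ℂ)} (hf : HolMap f) (hX : ∀ z, ∀ F ∈ S, eval (f z).rep F = 0)
    {h : Fin (n + 1) → ℂ → ℂ} (hm : ∀ j, Meromorphic (h j)) (hfe : ∀ j, LinEq r e σ t (h j))
    (hr : ∀ᶠ z in codiscrete ℂ, Rep (f z) fun j => h j z) :
    (∀ z, eval (f z).rep G = 0) ∨ ∃ k, 0 < k ∧ k ≤ B ∧ ∀ z, f (σ^[k] z) = f z := by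
  by_cases hGf' : ∀ z, eval (f z).rep G = 0
  · exact Or.inl hGf'
  right
  push Not at hGf'
  have hGf : ∃ z, eval (f z).rep G ≠ 0 := hGf'
  have hGn : ∀ᶠ z in codiscrete ℂ, eval (fun j => h j z) G ≠ 0 := by
    refine mero_ne (mero_eval hm G) fun h0 => ?_
    obtain ⟨z, hz⟩ := hGf
    apply hz
    refine form_all hf hG ?_ z
    filter_upwards [h0, hr] with y h1 h2
    exact (eval_rep h2 hG).2 h1
  have hpt : ∀ᶠ z in codiscrete ℂ, (fun j => h j z) ≠ 0 ∧ ∀ F ∈ S, eval (fun j => h j z) F = 0 := by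
    filter_upwards [hr] with z h1
    exact ⟨h1.1, fun F hF => (eval_rep h1 (hS F hF)).1 (hX z F hF)⟩
  choose P hne hdeg heq using hfe
  have g1 : Gnr fun z => ∀ j, ∀ m : ℕ, ∑ k ∈ Finset.range (r + 1),
      (P j k).eval (t (σ^[m] z)) * h j (σ^[k] (σ^[m] z)) = 0 :=
    Gnr.all fun j => gnr_orbit hσ (heq j)
  have g2 : Gnr fun z => ∀ (i k : ℕ), 0 < k → k ≤ B → t (σ^[k] (σ^[i] z)) ≠ t (σ^[i] z) := by
    refine Gnr.all fun i => Gnr.all fun k => ?_
    by_cases hk : 0 < k ∧ k ≤ B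
    · have hmt : Meromorphic (fun z => t (σ^[k] z) - t z) := fun z =>
        (((ht.comp (hσ.iter k).ent).analyticAt z).sub (ht.analyticAt z)).meromorphicAt
      have h4 : ∀ᶠ z in codiscrete ℂ, t (σ^[k] z) - t z ≠ 0 := by
        refine mero_ne hmt fun h0 => ?_
        obtain ⟨z, hz⟩ := hord k hk.1 hk.2
        apply hz
        exact eq_of_codis (f := fun z => t (σ^[k] z)) (g := t)
          (h0.mono fun y hy => sub_eq_zero.1 hy)
          ((ht.comp (hσ.iter k).ent) z).continuousAt (ht z).continuousAt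
      exact (Gnr.of_codis ((hσ.iter i).pull h4)).mono fun z hz _ _ h5 => hz (sub_eq_zero.2 h5)
    · exact (Gnr.of_codis (Eventually.of_forall fun z => trivial)).mono
        fun z _ h1 h2 => absurd ⟨h1, h2⟩ hk
  have hdich : Gnr fun z => ∃ ij : ℕ × ℕ, ij.1 < ij.2 ∧ ij.2 ≤ B ∧ ∀ u v,
      h u (σ^[ij.1] z) * h v (σ^[ij.2] z) = h v (σ^[ij.1] z) * h u (σ^[ij.2] z) := by
    refine ((g1.and g2).and ((gnr_orbit hσ hpt).and (gnr_orbit hσ hGn))).mono ?_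
    rintro z ⟨⟨e1, e2⟩, e3, e4⟩
    obtain ⟨i, j, hij, hjB, hs⟩ := huni (fun m => t (σ^[m] z)) (fun m j => h j (σ^[m] z))
      { pol := ⟨ρ, hρ, fun m => by rw [Function.iterate_succ_apply', hρt]⟩
        inj := by
          intro i j hij hjB h5
          apply e2 i (j - i) (by omega) (by omega)
          rw [← Function.iterate_add_apply, Nat.sub_add_cancel hij.le]
          exact h5.symm
        ne := fun m _ => (e3 m).1
        eqn := by
          intro j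
          refine ⟨P j, hne j, hdeg j, fun m _ => ?_⟩
          rw [← e1 j m]
          refine Finset.sum_congr rfl fun k _ => ?_
          rw [← Function.iterate_add_apply, Nat.add_comm m k]
        on := fun m _ F hF => (e3 m).2 F hF } fun m _ => e4 m
    exact ⟨(i, j), hij, hjB, hs⟩
  obtain ⟨⟨i, j⟩, hij⟩ := pigeon hdich
  have hlt : i < j ∧ j ≤ B := by
    by_contra hcon
    apply hij
    refine Set.Countable.mono ?_ Set.countable_empty
    rintro z ⟨h1, h2, -⟩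
    exact absurd ⟨h1, h2⟩ hcon
  obtain ⟨k, rfl⟩ : ∃ k, j = k + i := ⟨j - i, by omega⟩
  refine ⟨k, by omega, by omega, ?_⟩
  have hD : ∀ u v, ∀ᶠ z in codiscrete ℂ, h u (σ^[k] z) * h v z = h v (σ^[k] z) * h u z := by
    intro u v
    have hDm : Meromorphic fun z => h u (σ^[k] z) * h v z - h v (σ^[k] z) * h u z :=
      (((hσ.iter k).mero (hm u)).mul (hm v)).sub (((hσ.iter k).mero (hm v)).mul (hm u))
    have h2 : ∀ᶠ z in codiscrete ℂ, (fun z => h u (σ^[k] z) * h v z -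
        h v (σ^[k] z) * h u z) (σ^[i] z) = 0 := by
      refine mero_zero ((hσ.iter i).mero hDm) fun hc => hij (hc.mono ?_)
      rintro z ⟨-, -, hz⟩
      change h u (σ^[k] (σ^[i] z)) * h v (σ^[i] z) - h v (σ^[k] (σ^[i] z)) * h u (σ^[i] z) = 0
      rw [← Function.iterate_add_apply]
      have h3 := hz u v
      simp only at h3
      linear_combination -h3
    have h3 := (hσ.iter i).zero hDm h2
    filter_upwards [h3] with z hz
    exact sub_eq_zero.1 hz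
  have h2 : ∀ᶠ z in codiscrete ℂ, f (σ^[k] z) = f z := by
    have h3 : ∀ᶠ z in codiscrete ℂ, ∀ u v, h u (σ^[k] z) * h v z = h v (σ^[k] z) * h u z :=
      eventually_all.2 fun u => eventually_all.2 fun v => hD u v
    filter_upwards [h3, hr, (hσ.iter k).pull hr] with z e1 e2 e3
    exact rep_eq' e3 e2 fun u v => e1 u v
  exact holMap_ext' (Pool.Agent.Y189.DC.HolMap.comp hf (hσ.iter k).ent) hf h2

/-- **Entire curves**, uniformly in the variety. -/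
theorem pla_uniform (n D r e q : ℕ) : ∃ d : ℕ, ∀ S : Set (MvPolynomial (Fin (n + 1)) ℂ),
    (∀ F ∈ S, ∃ e, e ≤ D ∧ F.IsHomogeneous e) → ∀ (σ t : ℂ → ℂ) (ρ : Polynomial ℂ),
      Differentiable ℂ σ → (∃ z w, σ z ≠ σ w) → Differentiable ℂ t → ρ.natDegree ≤ q →
      (∀ z, t (σ z) = ρ.eval (t z)) →
      (∀ k, 0 < k → k ≤ d → ∃ z, t (σ^[k] z) ≠ t z) → ∀ f : ℂ → ℙ ℂ (Fin (n + 1) → ℂ),
        HolMap f → (∀ z, ∀ F ∈ S, eval (f z).rep F = 0) → LinCurve r e σ t f →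
          (∀ G : MvPolynomial (Fin (n + 1)) ℂ, (∃ e, e ≤ D ∧ G.IsHomogeneous e) → RatIn S G d →
            ∀ z, eval (f z).rep G = 0) ∨ ∃ k, 0 < k ∧ k ≤ d ∧ ∀ z, f (σ^[k] z) = f z := by
  obtain ⟨d, hd⟩ := eq_uniform n D r e q
  refine ⟨d, ?_⟩
  rintro S hS σ t ρ hσ hσn ht hρ hρt hord f hf hX ⟨h, hm, hfe, hr⟩
  by_cases hper : ∃ k, 0 < k ∧ k ≤ d ∧ ∀ z, f (σ^[k] z) = f z
  · exact Or.inr hper
  · refine Or.inl fun G hG hrat => (pla_main ⟨hσ, hσn⟩ ht hρ hρt hord (fun F hF => ?_) ?_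
      (fun t x hx hx0 => hd S hS G hG hrat t x hx hx0) hf hX hm hfe hr).resolve_right hper
    · obtain ⟨e, -, he⟩ := hS F hF
      exact ⟨e, he⟩
    · obtain ⟨e, -, he⟩ := hG
      exact ⟨e, he⟩

/-- **Entire curves**, for one variety. -/
theorem pla_special (S : Set (MvPolynomial (Fin (n + 1)) ℂ))
    (hS : ∀ F ∈ S, ∃ e, F.IsHomogeneous e) (r e q : ℕ) : ∃ d : ℕ,
    ∀ (σ t : ℂ → ℂ) (ρ : Polynomial ℂ),
      Differentiable ℂ σ → (∃ z w, σ z ≠ σ w) → Differentiable ℂ t → ρ.natDegree ≤ q →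
      (∀ z, t (σ z) = ρ.eval (t z)) →
      (∀ k, 0 < k → k ≤ d → ∃ z, t (σ^[k] z) ≠ t z) → ∀ f : ℂ → ℙ ℂ (Fin (n + 1) → ℂ),
        HolMap f → (∀ z, ∀ F ∈ S, eval (f z).rep F = 0) → LinCurve r e σ t f →
          (∀ G : MvPolynomial (Fin (n + 1)) ℂ, (∃ e, G.IsHomogeneous e) → RatIn S G d →
            ∀ z, eval (f z).rep G = 0) ∨ ∃ k, 0 < k ∧ k ≤ d ∧ ∀ z, f (σ^[k] z) = f z := by
  obtain ⟨d, hd⟩ := eq_special S hS r e q
  refine ⟨d, ?_⟩
  rintro σ t ρ hσ hσn ht hρ hρt hord f hf hX ⟨h, hm, hfe, hr⟩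
  by_cases hper : ∃ k, 0 < k ∧ k ≤ d ∧ ∀ z, f (σ^[k] z) = f z
  · exact Or.inr hper
  · exact Or.inl fun G hG hrat => (pla_main ⟨hσ, hσn⟩ ht hρ hρt hord hS hG
      (fun t x hx hx0 => hd G hG hrat t x hx hx0) hf hX hm hfe hr).resolve_right hper

end Pool.Agent.Q309.PO
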