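import Pool.Agent.Q309.PO.Mahler
import Pool.Agent.Q309.PO.Pla
import Pool.Agent.Q171.RC.Seq

/-!
Points on rational curves of bounded degree (with the closedness of the locus of pointed rational
curves in families, `Pool.Agent.Q171.RC`).
-/

set_option autoImplicit false

namespace Pool.Agent.Q309.PO

open MvPolynomial Filter Topology Set Metric
open scoped LinearAlgebra.Projectivization
open Pool.Agent.TH143.EL (HolMap)
open Pool.Agent.Q309.DU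
open Pool.Agent.Q309.TP (Same)
open Pool.Agent.Q1.SL
open Pool.Agent.Q171.RC (OnRat RatInG bde OnRat.zero)

variable {n : ℕ}

/-- **Windows.** -/
theorem win_strong (n D r e q R : ℕ) : ∃ d : ℕ, ∀ S : Set (MvPolynomial (Fin (n + 1)) ℂ),
    (∀ F ∈ S, ∃ e, e ≤ D ∧ F.IsHomogeneous e) → ∀ (t : ℕ → ℂ) (x : ℕ → Fin (n + 1) → ℂ),
      WSeq r e q S d t x → (∀ m ≤ d, ¬ OnRat S d (x m)) →
        ∃ k m0, 0 < k ∧ m0 + R + k ≤ d ∧ ∀ i ≤ R, Same (x (m0 + i + k)) (x (m0 + i)) := by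
  classical
  by_contra hcon
  push Not at hcon
  choose S hS t x hx hno hper using hcon
  rcases ultra_win (D := D) hS (t := t) (x := x) hx with ⟨k, m0, hk, hw⟩ | ⟨d0, m, hm⟩
  · have h1 : ∀ᶠ i in (hyperfilter ℕ : Filter ℕ), ∀ j ∈ Finset.range (R + 1),
        Same (x i (m0 + j + k)) (x i (m0 + j)) := by
      rw [Filter.eventually_all_finset]
      intro j _
      exact hw (m0 + j) (by omega)
    obtain ⟨i, hi1, hi2⟩ := (h1.and (hyper_ge (m0 + R + k))).exists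
    obtain ⟨j, hj, hne⟩ := hper i k m0 hk hi2
    exact hne (hi1 j (Finset.mem_range.2 (by omega)))
  · obtain ⟨e0, he0⟩ := bde (n + 1) D d0
    have hG' : ∀ i, ∃ G' : MvPolynomial (Fin (n + 1)) ℂ, max d0 m ≤ i →
        (∃ e, e ≤ e0 ∧ G'.IsHomogeneous e) ∧ RatInG (S i) d0 G' ∧ eval (x i m) G' ≠ 0 := by
      intro i
      by_cases hi : max d0 m ≤ i
      · have hi1 : d0 ≤ i := (le_max_left _ _).trans hi
        have hi2 : m ≤ i := (le_max_right _ _).trans hi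
        obtain ⟨G', h1⟩ := he0 (S i) (hS i) (x i m) ((hx i).ne m hi2) fun h =>
          hno i m hi2 (h.mono' hi1)
        exact ⟨G', fun _ => h1⟩
      · exact ⟨0, fun h => absurd h hi⟩
    choose G' hG' using hG'
    obtain ⟨e', -, hhe⟩ := exists_deg (F := G') (D := e0) (by
      filter_upwards [hyper_ge (max d0 m)] with i hi
      exact (hG' i hi).1)
    have h1 := hm G' e' hhe (fun h0 => by
      obtain ⟨i, hi1, hi2⟩ := (h0.and (hyper_ge (max d0 m))).exists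
      exact (hG' i hi2).2.2 hi1)
    obtain ⟨i, ⟨p, hp1, hp2, hp3, hp4⟩, hi⟩ := (h1.and (hyper_ge (max d0 m))).exists
    exact hp4 ((hG' i hi).2.1 p hp3 hp1 hp2)

/-- **The number of points.** -/
theorem pts_strong (n D r e q : ℕ) : ∃ N : ℕ, ∀ S : Set (MvPolynomial (Fin (n + 1)) ℂ),
    (∀ F ∈ S, ∃ e, e ≤ D ∧ F.IsHomogeneous e) → ∀ (M : ℕ) (t : ℕ → ℂ)
        (x : ℕ → Fin (n + 1) → ℂ), WSeq r e q S M t x → (∀ m ≤ M, ¬ OnRat S N (x m)) →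
          ∃ I : Finset ℕ, I.card ≤ N ∧ ∀ m ≤ M, ∃ i ∈ I, i ≤ m ∧ Same (x i) (x m) := by
  obtain ⟨d, hd⟩ := win_strong n D r e q ((r + 1) * (r + 1))
  refine ⟨d + (n + 1) * (n + 1) * (d + 1) * cst r (e * q ^ r) q d * (d + 1) + 2,
    fun S hS M t x hx hG => ?_⟩
  refine count_pts hx fun w hw => ?_
  refine hd S hS _ _ (hx.window hw) fun m hm h0 => hG (w + m) (by omega) (h0.mono' ?_)
  rw [Nat.add_assoc]
  exact Nat.le_add_right _ _

/-- **Two equal points.** -/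
theorem eq_strong (n D r e q : ℕ) : ∃ N : ℕ, ∀ S : Set (MvPolynomial (Fin (n + 1)) ℂ),
    (∀ F ∈ S, ∃ e, e ≤ D ∧ F.IsHomogeneous e) → ∀ (t : ℕ → ℂ)
        (x : ℕ → Fin (n + 1) → ℂ), WSeq r e q S N t x → (∀ m ≤ N, ¬ OnRat S N (x m)) →
          ∃ i j, i < j ∧ j ≤ N ∧ Same (x i) (x j) := by
  obtain ⟨N, hN⟩ := pts_strong n D r e q
  exact ⟨N, fun S hS t x hx hx0 => two_of_few hx.ne (hN S hS N t x hx hx0)⟩

/-- **Mahler discs.** -/
theorem mahler_strong (n D r e q : ℕ) : ∃ d : ℕ, ∀ S : Set (MvPolynomial (Fin (n + 1)) ℂ),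
    (∀ F ∈ S, ∃ e, e ≤ D ∧ F.IsHomogeneous e) → ∀ p, 2 ≤ p → p ≤ q →
      ∀ h : ℂ → Fin (n + 1) → ℂ, MahlerDisc r e p S h →
        ∀ z ∈ ball (0 : ℂ) 1, h z ≠ 0 → OnRat S d (h z) := by
  obtain ⟨d, hd⟩ := eq_strong n D r e q
  refine ⟨d, fun S hS p hp hpq h H z hz hz0 => ?_⟩
  by_contra hno
  obtain ⟨e0, he0⟩ := bde (n + 1) D d
  obtain ⟨G, -, h4, h5⟩ := he0 S hS (h z) hz0 hno
  exact h5 (mahler_core hp hpq H (fun t x hx hx0 => hd S hS t x hx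
    fun m hm h1 => hx0 m hm (h1.zero h4)) z hz)

/-- **Entire curves.** -/
theorem pla_strong (n D r e q : ℕ) : ∃ d : ℕ, ∀ S : Set (MvPolynomial (Fin (n + 1)) ℂ),
    (∀ F ∈ S, ∃ e, e ≤ D ∧ F.IsHomogeneous e) → ∀ (σ t : ℂ → ℂ) (ρ : Polynomial ℂ),
      Differentiable ℂ σ → (∃ z w, σ z ≠ σ w) → Differentiable ℂ t → ρ.natDegree ≤ q →
      (∀ z, t (σ z) = ρ.eval (t z)) →
      (∀ k, 0 < k → k ≤ d → ∃ z, t (σ^[k] z) ≠ t z) → ∀ f : ℂ → ℙ ℂ (Fin (n + 1) → ℂ),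
        HolMap f → (∀ z, ∀ F ∈ S, eval (f z).rep F = 0) → LinCurve r e σ t f →
          (∀ z, OnRat S d (f z).rep) ∨ ∃ k, 0 < k ∧ k ≤ d ∧ ∀ z, f (σ^[k] z) = f z := by
  obtain ⟨d, hd⟩ := eq_strong n D r e q
  refine ⟨d, ?_⟩
  rintro S hS σ t ρ hσ hσn ht hρ hρt hord f hf hX ⟨h, hm, hfe, hr⟩
  by_cases hper : ∃ k, 0 < k ∧ k ≤ d ∧ ∀ z, f (σ^[k] z) = f z
  · exact Or.inr hper
  · refine Or.inl fun z => ?_
    by_contra hno
    obtain ⟨e0, he0⟩ := bde (n + 1) D d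
    obtain ⟨G, ⟨e1, -, he1⟩, h4, h5⟩ := he0 S hS (f z).rep (f z).rep_nonzero hno
    exact h5 ((pla_main ⟨hσ, hσn⟩ ht hρ hρt hord (fun F hF => by
        obtain ⟨e, -, he⟩ := hS F hF
        exact ⟨e, he⟩) ⟨e1, he1⟩
      (fun t x hx hx0 => hd S hS t x hx fun m hm' h1 => hx0 m hm' (h1.zero h4)) hf hX hm hfe
        hr).resolve_right hper z)

end Pool.Agent.Q309.PO
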