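import Pool.Agent.Q309.PO.Good
import Pool.Agent.Q309.DU.Seq

/-!
Sequences of points of projective varieties given by linear difference equations with polynomial
coefficients along an orbit of a polynomial map: the dichotomy.
-/

set_option autoImplicit false

namespace Pool.Agent.Q309.PO

open MvPolynomial Filter
open Pool.Agent.TH143.DE (LinRec ratB ev_ne)
open Pool.Agent.TH143.TW (Per EC Tow tow_rat)
open Pool.Agent.Y189.DD (RC GoodR tow_good')

variable {n : ℕ}

theorem natDegree_pos {t : ℕ → ℂ} {ρ : Polynomial ℂ} (ht : ∀ m, t (m + 1) = ρ.eval (t m))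
    (h : t 1 ≠ t 2) : 1 ≤ ρ.natDegree := by
  by_contra hcon
  have h0 : ρ.natDegree = 0 := by omega
  apply h
  have h1 := ht 0
  have h2 := ht 1
  rw [Polynomial.eq_C_of_natDegree_eq_zero h0, Polynomial.eval_C] at h1 h2
  rw [zero_add] at h1
  rw [h1]
  exact h2.symm

/-- **The dichotomy for one sequence**: it is eventually periodic, or there is a rational curve
through one of the points. -/
theorem pol_dich {ρ : Polynomial ℂ} {t : ℕ → ℂ} (ht : ∀ m, t (m + 1) = ρ.eval (t m))
    (hinj : Function.Injective t) {s : Set (MvPolynomial (Fin (n + 1)) ℂ)}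
    (hs : ∀ G ∈ s, ∃ d, G.IsHomogeneous d) {x : ℕ → Fin (n + 1) → ℂ} (hx0 : ∀ m, x m ≠ 0)
    {r : ℕ} {P : Fin (n + 1) → ℕ → Polynomial ℂ} (hP : ∀ j, ∃ k ≤ r, P j k ≠ 0)
    (hrec : ∀ j m, ∑ k ∈ Finset.range (r + 1), (P j k).eval (t m) * x (m + k) j = 0)
    (hX : ∀ m, ∀ G ∈ s, eval (x m) G = 0) : Per x ∨ ∃ m, RC s (x m) := by
  have h1 : 1 ≤ ρ.natDegree := natDegree_pos ht fun h0 => by
    have := hinj h0
    omega
  rcases Nat.lt_or_ge 1 ρ.natDegree with h2 | h2
  · by_cases hrc : ∃ m, RC s (x m)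
    · exact Or.inr hrc
    left
    push Not at hrc
    refine good_pol hinj ht h2 hs x (Eventually.of_forall fun m => hx0 m) (fun j => ?_)
      (Eventually.of_forall fun m => hX m) (Eventually.of_forall fun m => hrc m)
    obtain ⟨k0, hk0, hPk0⟩ := hP j
    refine ⟨r, fun k m => (P j k).eval (t m), fun k => ⟨P j k, 1, one_ne_zero,
      Eventually.of_forall fun m => by rw [Polynomial.eval_one, div_one]⟩,
      ⟨k0, hk0, fun h0 => ?_⟩, Eventually.of_forall fun m => hrec j m⟩
    obtain ⟨m, h1, h2⟩ := (h0.and (ev_ne hinj hPk0)).exists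
    exact h2 h1
  · have h3 : ρ.natDegree = 1 := by omega
    refine Pool.Agent.Q309.DU.seq_dich (α := ρ.coeff 1) (β := ρ.coeff 0) (fun m => ?_) hinj hs hx0
      hP hrec hX
    rw [ht, Polynomial.eval_eq_sum_range, h3]
    simp only [Finset.sum_range_succ, Finset.sum_range_zero, pow_zero, pow_one, mul_one, zero_add]
    ring

end Pool.Agent.Q309.PO
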