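import Pool.Agent.Q309.PO.Fld

/-!
Holomorphic curves on domains given by linear functional equations whose coefficients are polynomials
in a solution of `t ∘ σ = ρ ∘ t`.
-/

set_option autoImplicit false

namespace Pool.Agent.Q309.PO

open MvPolynomial Filter Topology Set Metric
open Pool.Agent.Q309.DU
open Pool.Agent.Q309.TP (Same)
open Pool.Agent.Q1.SL

variable {n : ℕ}

theorem ev_ne {Ω : Set ℂ} (hc : IsPreconnected Ω) {z0 : ℂ} (h0 : z0 ∈ Ω) {g : ℂ → ℂ}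
    (hg : AnalyticOnNhd ℂ g Ω) (hne : ∃ z ∈ Ω, g z ≠ 0) : ∀ᶠ z in 𝓝[≠] z0, g z ≠ 0 := by
  by_contra hcon
  have h1 : ∃ᶠ z in 𝓝[≠] z0, g z = 0 := by
    intro h2
    exact hcon h2
  obtain ⟨z, hz, hz'⟩ := hne
  exact hz' (hg.eqOn_zero_of_preconnected_of_frequently_eq_zero hc h0 h1 hz)

/-- `σ` is a nonconstant holomorphic map from the domain `Ω` to itself. -/
structure Dyn (Ω : Set ℂ) (σ : ℂ → ℂ) : Prop where
  op : IsOpen Ω
  con : IsPreconnected Ω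
  an : AnalyticOnNhd ℂ σ Ω
  maps : MapsTo σ Ω Ω
  nc : ∃ z ∈ Ω, ∃ w ∈ Ω, σ z ≠ σ w

theorem Dyn.zero {Ω : Set ℂ} {σ : ℂ → ℂ} (h : Dyn Ω σ) {g : ℂ → ℂ} (hg : AnalyticOnNhd ℂ g Ω)
    (h0 : ∀ z ∈ Ω, g (σ z) = 0) : ∀ z ∈ Ω, g z = 0 := by
  obtain ⟨z, hz, w, hw, hzw⟩ := h.nc
  rcases h.an.is_constant_or_isOpen h.con with ⟨c, hc⟩ | hopen
  · exact absurd ((hc z hz).trans (hc w hw).symm) hzw
  · have ho : IsOpen (σ '' Ω) := hopen Ω subset_rfl h.op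
    have h1 : g =ᶠ[𝓝 (σ z)] 0 := by
      filter_upwards [ho.mem_nhds ⟨z, hz, rfl⟩]
      rintro _ ⟨y, hy, rfl⟩
      exact h0 y hy
    exact fun y hy => hg.eqOn_zero_of_preconnected_of_eventuallyEq_zero h.con (h.maps hz) h1 hy

theorem Dyn.iter {Ω : Set ℂ} {σ : ℂ → ℂ} (h : Dyn Ω σ) (k : ℕ) : Dyn Ω (σ^[k]) := by
  induction k with
  | zero =>
    refine ⟨h.op, h.con, analyticOnNhd_id, fun z hz => hz, ?_⟩
    obtain ⟨z, hz, w, hw, hzw⟩ := h.nc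
    exact ⟨z, hz, w, hw, fun h1 => hzw (congrArg σ h1)⟩
  | succ k ih =>
    refine ⟨h.op, h.con, ?_, ?_, ?_⟩
    · rw [Function.iterate_succ]
      exact ih.an.comp h.an h.maps
    · rw [Function.iterate_succ]
      exact ih.maps.comp h.maps
    · obtain ⟨z, hz, w, hw, hzw⟩ := ih.nc
      by_contra hcon
      push Not at hcon
      have h1 := h.zero (g := fun y => σ^[k] y - σ^[k] (σ z)) (ih.an.sub analyticOnNhd_const)
        fun y hy => by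
          have h2 := hcon y hy z hz
          rw [Function.iterate_succ_apply, Function.iterate_succ_apply] at h2
          exact sub_eq_zero.2 h2
      apply hzw
      rw [sub_eq_zero.1 (h1 z hz), sub_eq_zero.1 (h1 w hw)]

theorem Dyn.gen {Ω : Set ℂ} {σ : ℂ → ℂ} (h : Dyn Ω σ) {z0 : ℂ} (h0 : z0 ∈ Ω) {g : ℂ → ℂ}
    (hg : AnalyticOnNhd ℂ g Ω) (hne : ∃ z ∈ Ω, g z ≠ 0) (B : ℕ) :
    ∀ᶠ z in 𝓝[≠] z0, ∀ i ≤ B, g (σ^[i] z) ≠ 0 := by
  have h1 : ∀ᶠ z in 𝓝[≠] z0, ∀ i ∈ Set.Iic B, g (σ^[i] z) ≠ 0 := by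
    rw [Filter.eventually_all_finite (Set.finite_Iic B)]
    intro i _
    refine ev_ne h.con h0 (g := fun z => g (σ^[i] z)) (hg.comp (h.iter i).an (h.iter i).maps) ?_
    by_contra hcon
    push Not at hcon
    obtain ⟨z, hz, hz'⟩ := hne
    exact hz' ((h.iter i).zero hg hcon z hz)
  exact h1

/-- **Curves on domains.** -/
theorem dom_main {Ω : Set ℂ} {σ t : ℂ → ℂ} (hσ : Dyn Ω σ) (ht : AnalyticOnNhd ℂ t Ω)
    {ρ : Polynomial ℂ} {q : ℕ} (hρ : ρ.natDegree ≤ q) (hρt : ∀ z ∈ Ω, t (σ z) = ρ.eval (t z))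
    {B : ℕ} (hord : ∀ k, 0 < k → k ≤ B → ∃ z ∈ Ω, t (σ^[k] z) ≠ t z)
    {S : Set (MvPolynomial (Fin (n + 1)) ℂ)} {h : ℂ → Fin (n + 1) → ℂ}
    (hX : ∀ F ∈ S, ∀ z ∈ Ω, eval (h z) F = 0) {r e : ℕ}
    (hh : ∀ j, AnalyticOnNhd ℂ (fun z => h z j) Ω) (hne : ∃ z ∈ Ω, h z ≠ 0)
    (hfe : ∀ j, ∃ P : ℕ → Polynomial ℂ, (∃ k ≤ r, P k ≠ 0) ∧ (∀ k, (P k).natDegree ≤ e) ∧
      ∀ z ∈ Ω, ∑ k ∈ Finset.range (r + 1), (P k).eval (t z) * h (σ^[k] z) j = 0)
    {G : MvPolynomial (Fin (n + 1)) ℂ} (hG : ∃ z ∈ Ω, eval (h z) G ≠ 0)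
    (huni : ∀ (t : ℕ → ℂ) (x : ℕ → Fin (n + 1) → ℂ), WSeq r e q S B t x →
      (∀ m ≤ B, eval (x m) G ≠ 0) → ∃ i j, i < j ∧ j ≤ B ∧ Same (x i) (x j)) :
    ∃ k, 0 < k ∧ k ≤ B ∧ ∀ z ∈ Ω, Same (h (σ^[k] z)) (h z) := by
  classical
  by_contra hcon
  push Not at hcon
  obtain ⟨zs, hzs, hzn⟩ := hne
  obtain ⟨j0, hj0⟩ := Function.ne_iff.1 hzn
  have hj0' : h zs j0 ≠ 0 := hj0
  have hit : ∀ (i : ℕ) (z : ℂ), z ∈ Ω → σ^[i] z ∈ Ω := fun i z hz => (hσ.iter i).maps hz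
  have hGa : AnalyticOnNhd ℂ (fun z => eval (h z) G) Ω := fun z hz => by
    have h1 := AnalyticAt.aeval_mvPolynomial (f := fun z => h z) (z := z)
      (fun j => hh j z hz) G
    exact h1
  have e0 : ∀ᶠ z in 𝓝[≠] zs, z ∈ Ω := Filter.Eventually.filter_mono nhdsWithin_le_nhds
    (hσ.op.mem_nhds hzs)
  have e1 := hσ.gen hzs (hh j0) ⟨zs, hzs, hj0'⟩ B
  have e2 := hσ.gen hzs hGa hG B
  have e3 : ∀ᶠ z in 𝓝[≠] zs, ∀ k ∈ Set.Icc 1 B, ∀ i ≤ B, t (σ^[k] (σ^[i] z)) - t (σ^[i] z) ≠ 0 := by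
    rw [Filter.eventually_all_finite (Set.finite_Icc 1 B)]
    intro k hk
    obtain ⟨z, hz, hz'⟩ := hord k hk.1 hk.2
    exact hσ.gen hzs (g := fun z => t (σ^[k] z) - t z)
      ((ht.comp (hσ.iter k).an (hσ.iter k).maps).sub ht) ⟨z, hz, sub_ne_zero.2 hz'⟩ B
  have e4 : ∀ᶠ z in 𝓝[≠] zs, ∀ k ∈ Set.Icc 1 B, ∀ i ≤ B,
      ¬ Same (h (σ^[k] (σ^[i] z))) (h (σ^[i] z)) := by
    rw [Filter.eventually_all_finite (Set.finite_Icc 1 B)]
    intro k hk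
    obtain ⟨z, hz, hz'⟩ := hcon k hk.1 hk.2
    unfold Same at hz'
    push Not at hz'
    obtain ⟨u, v, huv⟩ := hz'
    have h1 := hσ.gen hzs (g := fun z => h (σ^[k] z) u * h z v - h (σ^[k] z) v * h z u)
      ((((hh u).comp (hσ.iter k).an (hσ.iter k).maps).mul (hh v)).sub
        (((hh v).comp (hσ.iter k).an (hσ.iter k).maps).mul (hh u))) ⟨z, hz, sub_ne_zero.2 huv⟩ B
    filter_upwards [h1] with z hz i hi hs
    exact hz i hi (sub_eq_zero.2 (hs u v))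
  obtain ⟨z, ⟨⟨⟨h0, h1⟩, h2⟩, h3⟩, h4⟩ := ((((e0.and e1).and e2).and e3).and e4).exists
  choose P hP0 hPd hP using hfe
  obtain ⟨i, j, hij, hj, hs⟩ := huni (fun m => t (σ^[m] z)) (fun m => h (σ^[m] z))
    { pol := ⟨ρ, hρ, fun m => by rw [Function.iterate_succ_apply', hρt _ (hit m z h0)]⟩
      inj := by
        intro i j hij hj h5
        apply h3 (j - i) ⟨by omega, by omega⟩ i (by omega)
        rw [← Function.iterate_add_apply, Nat.sub_add_cancel hij.le, h5, sub_self]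
      ne := fun m hm h5 => h1 m hm (by rw [h5, Pi.zero_apply])
      eqn := by
        intro j
        refine ⟨P j, hP0 j, hPd j, fun m _ => ?_⟩
        rw [← hP j (σ^[m] z) (hit m z h0)]
        refine Finset.sum_congr rfl fun k _ => ?_
        rw [← Function.iterate_add_apply, Nat.add_comm m k]
      on := fun m _ F hF => hX F hF _ (hit m z h0) } h2
  refine h4 (j - i) ⟨by omega, by omega⟩ i (by omega) ?_
  rw [← Function.iterate_add_apply, Nat.sub_add_cancel hij.le]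
  exact hs.symm

/-- the curve is contained in a line spanned by a vector -/
theorem const_of_line {Ω : Set ℂ} {h : ℂ → Fin (n + 1) → ℂ} {c : Fin (n + 1) → ℂ} (hc : c ≠ 0)
    (H : ∀ z ∈ Ω, ∀ u v, c u * h z v = c v * h z u) {z w : ℂ} (hz : z ∈ Ω) (hw : w ∈ Ω)
    (u v : Fin (n + 1)) : h z u * h w v = h z v * h w u := by
  obtain ⟨l, hl⟩ := Function.ne_iff.1 hc
  have hl' : c l ≠ 0 := hl
  apply mul_left_cancel₀ hl'
  have e1 := H z hz l u
  have e2 := H z hz l v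
  have e3 := H w hw u v
  have e4 := H w hw l u
  have e5 := H w hw l v
  apply mul_left_cancel₀ hl'
  linear_combination c l * h w v * e1 - c l * h w u * e2 + (c u * h z l) * e5 - (c v * h z l) * e4

theorem iter_pow (P : ℕ) (m : ℕ) (z : ℂ) : (fun z : ℂ => z ^ P)^[m] z = z ^ P ^ m := by
  induction m generalizing z with
  | zero => simp
  | succ m ih => rw [Function.iterate_succ_apply, ih, ← pow_mul, pow_succ, mul_comm P]

/-- **Invariant curves on the disc are constant.** -/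
theorem disc_const {P : ℕ} (hP : 2 ≤ P) {h : ℂ → Fin (n + 1) → ℂ}
    (hh : ∀ j, AnalyticOnNhd ℂ (fun z => h z j) (ball 0 1)) (hne : ∃ z ∈ ball (0 : ℂ) 1, h z ≠ 0)
    (H : ∀ z ∈ ball (0 : ℂ) 1, Same (h (z ^ P)) (h z)) :
    ∀ z ∈ ball (0 : ℂ) 1, ∀ w ∈ ball (0 : ℂ) 1, ∀ u v, h z u * h w v = h z v * h w u := by
  have h0 : (0 : ℂ) ∈ ball (0 : ℂ) 1 := mem_ball_self one_pos
  have hcon : IsPreconnected (ball (0 : ℂ) 1) := (convex_ball _ _).isPreconnected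
  have han : AnalyticAt ℂ h 0 := by
    rw [analyticAt_pi_iff]
    exact fun j => hh j 0 h0
  -- the order at the origin
  obtain ⟨s, g, hg, hg0, hgs⟩ : ∃ (s : ℕ) (g : ℂ → Fin (n + 1) → ℂ), AnalyticAt ℂ g 0 ∧ g 0 ≠ 0 ∧
      ∀ᶠ z in 𝓝 (0 : ℂ), h z = (z - 0) ^ s • g z := by
    by_cases htop : analyticOrderAt h 0 = ⊤
    · exfalso
      rw [analyticOrderAt_eq_top] at htop
      obtain ⟨z, hz, hz'⟩ := hne
      apply hz'
      funext j
      exact (hh j).eqOn_zero_of_preconnected_of_eventuallyEq_zero hcon h0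
        (htop.mono fun y hy => congrFun hy j) hz
    · obtain ⟨s, hs⟩ := ENat.ne_top_iff_exists.1 htop
      obtain ⟨g, hg, hg0, hgs⟩ := (han.analyticOrderAt_eq_natCast (n := s)).1 hs.symm
      exact ⟨s, g, hg, hg0, hgs⟩
  -- near the origin
  have hgne : ∀ᶠ z in 𝓝 (0 : ℂ), g z ≠ 0 := hg.continuousAt.eventually_ne hg0
  obtain ⟨δ, hδ, hball⟩ := Metric.eventually_nhds_iff_ball.1 (hgs.and hgne)
  set δ' := min δ 1 with hδ'
  have hδ'0 : 0 < δ' := lt_min hδ one_pos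
  have hsmall : ∀ z ∈ ball (0 : ℂ) δ', z ∈ ball (0 : ℂ) 1 ∧ h z = z ^ s • g z ∧ g z ≠ 0 := by
    intro z hz
    have h1 := hball z (ball_subset_ball (min_le_left _ _) hz)
    rw [sub_zero] at h1
    exact ⟨ball_subset_ball (min_le_right _ _) hz, h1.1, h1.2⟩
  have hpow : ∀ z ∈ ball (0 : ℂ) δ', z ^ P ∈ ball (0 : ℂ) δ' := by
    intro z hz
    rw [mem_ball_zero_iff] at hz ⊢
    rw [norm_pow]
    have h1 : ‖z‖ ≤ 1 := hz.le.trans (min_le_right _ _)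
    calc ‖z‖ ^ P ≤ ‖z‖ ^ 1 := pow_le_pow_of_le_one (norm_nonneg _) h1 (by omega)
      _ = ‖z‖ := pow_one _
      _ < δ' := hz
  have hstep : ∀ z ∈ ball (0 : ℂ) δ', z ≠ 0 → Same (g (z ^ P)) (g z) := by
    intro z hz hz0 u v
    have h1 := H z (hsmall z hz).1 u v
    rw [(hsmall z hz).2.1, (hsmall _ (hpow z hz)).2.1] at h1
    simp only [Pi.smul_apply, smul_eq_mul] at h1
    have h2 : (z ^ P) ^ s * z ^ s ≠ 0 := mul_ne_zero (pow_ne_zero _ (pow_ne_zero _ hz0))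
      (pow_ne_zero _ hz0)
    apply mul_left_cancel₀ h2
    linear_combination h1
  have hiter : ∀ (m : ℕ) (z : ℂ), z ∈ ball (0 : ℂ) δ' → z ≠ 0 →
      Same (g ((fun z : ℂ => z ^ P)^[m] z)) (g z) ∧
        (fun z : ℂ => z ^ P)^[m] z ∈ ball (0 : ℂ) δ' ∧ (fun z : ℂ => z ^ P)^[m] z ≠ 0 := by
    intro m
    induction m with
    | zero => exact fun z hz hz0 => ⟨fun u v => mul_comm _ _, hz, hz0⟩
    | succ m ih =>
      intro z hz hz0
      obtain ⟨h1, h2, h3⟩ := ih z hz hz0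
      rw [Function.iterate_succ_apply']
      exact ⟨(hstep _ h2 h3).trans (hsmall _ h2).2.2 h1, hpow _ h2, pow_ne_zero _ h3⟩
  have hlim : ∀ z ∈ ball (0 : ℂ) δ', z ≠ 0 → Same (g 0) (g z) := by
    intro z hz hz0 u v
    have hz1 : ‖z‖ < 1 := by
      rw [mem_ball_zero_iff] at hz
      exact hz.trans_le (min_le_right _ _)
    have ht : Tendsto (fun m : ℕ => (fun z : ℂ => z ^ P)^[m] z) atTop (𝓝 0) := by
      simp only [iter_pow]
      have h1 : Tendsto (fun k : ℕ => z ^ k) atTop (𝓝 0) :=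
        tendsto_pow_atTop_nhds_zero_of_norm_lt_one hz1
      exact h1.comp (tendsto_pow_atTop_atTop_of_one_lt (by omega))
    have hgu : ∀ l, Tendsto (fun m : ℕ => g ((fun z : ℂ => z ^ P)^[m] z) l) atTop (𝓝 (g 0 l)) :=
      fun l => ((continuous_apply l).continuousAt.tendsto.comp hg.continuousAt.tendsto).comp ht
    have h1 := tendsto_nhds_unique ((hgu u).mul_const (g z v)) (((hgu v).mul_const (g z u)).congr
      fun m => ((hiter m z hz hz0).1 u v).symm)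
    exact h1
  have hline : ∀ z ∈ ball (0 : ℂ) 1, ∀ u v, g 0 u * h z v = g 0 v * h z u := by
    intro z hz u v
    have h1 : AnalyticOnNhd ℂ (fun z => g 0 u * h z v - g 0 v * h z u) (ball 0 1) :=
      (analyticOnNhd_const.mul (hh v)).sub (analyticOnNhd_const.mul (hh u))
    have h2 : (fun z => g 0 u * h z v - g 0 v * h z u) =ᶠ[𝓝[≠] 0] 0 := by
      have h3 : ∀ᶠ z in 𝓝[≠] (0 : ℂ), z ∈ ball (0 : ℂ) δ' :=
        Filter.Eventually.filter_mono nhdsWithin_le_nhds (ball_mem_nhds _ hδ'0)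
      filter_upwards [h3, self_mem_nhdsWithin] with y hy hy0
      have h4 := hlim y hy hy0 u v
      rw [(hsmall y hy).2.1]
      simp only [Pi.smul_apply, smul_eq_mul, Pi.zero_apply]
      linear_combination y ^ s * h4
    exact sub_eq_zero.1 (h1.eqOn_zero_of_preconnected_of_frequently_eq_zero hcon h0
      h2.frequently hz)
  exact fun z hz w hw u v => const_of_line hg0 hline hz hw u v

theorem disc_dyn {p : ℕ} (hp : 2 ≤ p) : Dyn (ball (0 : ℂ) 1) fun z => z ^ p := by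
  refine ⟨isOpen_ball, (convex_ball _ _).isPreconnected,
    (analyticOnNhd_id.pow p), fun z hz => ?_, 0, mem_ball_self one_pos, 1 / 2, ?_, ?_⟩
  · rw [mem_ball_zero_iff] at hz ⊢
    rw [norm_pow]
    exact pow_lt_one₀ (norm_nonneg _) hz (by omega)
  · rw [mem_ball_zero_iff]
    norm_num
  · rw [zero_pow (by omega)]
    exact (pow_ne_zero p (by norm_num)).symm

theorem disc_ord {p : ℕ} (hp : 2 ≤ p) {k : ℕ} (hk : 0 < k) :
    ∃ z ∈ ball (0 : ℂ) 1, (fun z : ℂ => z ^ p)^[k] z ≠ z := by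
  refine ⟨1 / 2, by rw [mem_ball_zero_iff]; norm_num, ?_⟩
  rw [iter_pow]
  intro h
  have h1 := congrArg norm h
  rw [norm_pow] at h1
  have h2 : ‖(1 / 2 : ℂ)‖ = 1 / 2 := by norm_num
  rw [h2] at h1
  have h3 : 1 < p ^ k := Nat.one_lt_pow hk.ne' (by omega)
  have h4 : (1 / 2 : ℝ) ^ p ^ k < (1 / 2 : ℝ) ^ 1 :=
    pow_lt_pow_right_of_lt_one₀ (by norm_num) (by norm_num) h3
  rw [pow_one] at h4
  exact absurd h1 h4.ne

end Pool.Agent.Q309.PO
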