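import Pool.Agent.Q309.PO.Neg
import Pool.Agent.TH143.GE.Model
import Pool.Agent.Y189.DD.RC

/-!
Sequences of points given by linear recurrences with coefficients along an orbit of a polynomial of
degree at least two.
-/

set_option autoImplicit false

namespace Pool.Agent.Q309.PO

open MvPolynomial Filter Pool.Agent.TH143.DE Pool.Agent.TH143.HE Pool.Agent.TH143.TW
  Pool.Agent.TH143.GE FF Module
open Pool.Agent.Y189.DD (RC rc_of GoodR)

variable {N : ℕ}

section

variable {K : Type} [Field K] [Algebra ℂ K] {j : K →ₐ[ℂ] GG} {σ : K →ₐ[ℂ] K}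

theorem j_aeval {x : ℕ → Fin (N + 1) → ℂ} {Y : Fin (N + 1) → K}
    (hY : ∀ i, j (Y i) = gg fun m => x m i) (G : MvPolynomial (Fin (N + 1)) ℂ) :
    j (aeval Y G) = gg fun m => eval (x m) G := by
  have h1 := MvPolynomial.comp_aeval_apply (f := Y) j G
  rw [h1]
  have h2 : (fun i => j (Y i)) = fun i => gg fun m => x m i := funext hY
  rw [h2]
  exact aeval_gg (fun i m => x m i) G

theorem j_poly (u : K) {U : ℕ → ℂ} (hU : j u = gg U) (p : Polynomial ℂ) :
    j (Polynomial.aeval u p) = gg fun m => p.eval (U m) := by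
  rw [← Polynomial.aeval_algHom_apply, hU]
  have h1 : Polynomial.aeval (gg U) p = gg (Polynomial.aeval U p) :=
    Polynomial.aeval_algHom_apply gg U p
  rw [h1]
  congr 1
  funext m
  exact aeval_seq U p m

/-- The case of genus zero. -/
theorem rat_rc {s : Set (MvPolynomial (Fin (N + 1)) ℂ)} (hs : ∀ G ∈ s, ∃ d, G.IsHomogeneous d)
    {u : K} (htr : Transcendental ℂ u) (hu : IntermediateField.adjoin ℂ {u} = ⊤)
    {x : ℕ → Fin (N + 1) → ℂ} {Y : Fin (N + 1) → K} (hY : ∀ i, j (Y i) = gg fun m => x m i)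
    (hX : ∀ᶠ m in atTop, ∀ G ∈ s, eval (x m) G = 0)
    (hc : ¬ ∃ (v : K) (c : Fin (N + 1) → ℂ), ∀ i, Y i = algebraMap ℂ K (c i) * v) :
    ∀ᶠ m in atTop, RC s (x m) := by
  obtain ⟨p, D, hD, hp⟩ := exists_den hu Y
  have hnc : NonConst p := by
    by_contra hnc
    apply hc
    obtain ⟨i0, hi0⟩ : ∃ i0, Y i0 ≠ 0 := by
      by_contra hcon
      push Not at hcon
      exact hc ⟨0, 0, fun i => by rw [mul_zero]; exact hcon i⟩
    obtain ⟨c, hc⟩ := aeval_prop hnc (t := u) (i0 := i0) (by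
      rw [hp]
      exact mul_ne_zero hD hi0)
    refine ⟨Y i0, c, fun i => ?_⟩
    have h1 := hc i
    rw [hp, hp] at h1
    apply mul_left_cancel₀ hD
    linear_combination h1
  have hpG : ∀ G ∈ s, (aeval p G : Polynomial ℂ) = 0 := by
    intro G hG
    obtain ⟨d, hd⟩ := hs G hG
    by_contra hne
    apply htr
    refine ⟨_, hne, ?_⟩
    have h1 : Polynomial.aeval u (aeval p G : Polynomial ℂ) =
        aeval (fun i => Polynomial.aeval u (p i)) G :=
      MvPolynomial.comp_aeval_apply (f := p) (Polynomial.aeval u) G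
    have h2 : (fun i => Polynomial.aeval u (p i)) = fun i => D * Y i := funext hp
    have h3 : aeval (fun i => D * Y i) G = D ^ d * aeval Y G :=
      eval₂_smul_homog (algebraMap ℂ K) D Y hd
    have h4 : aeval Y G = 0 := by
      apply j_inj (j := j)
      rw [j_aeval hY, map_zero, gg_zero]
      filter_upwards [hX] with m hm
      exact hm G hG
    rw [h1, h2, h3, h4, mul_zero]
  obtain ⟨U, hU⟩ := gg_surj (j u)
  obtain ⟨Δ, hΔ⟩ := gg_surj (j D)
  have hΔ0 : ∀ᶠ m in atTop, Δ m ≠ 0 := by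
    apply unit_ne
    rw [hΔ]
    exact (isUnit_iff_ne_zero.2 hD).map j
  have hall : ∀ᶠ m in atTop, ∀ i, (p i).eval (U m) = Δ m * x m i := by
    rw [eventually_all]
    intro i
    have h1 := congrArg j (hp i)
    rw [j_poly u hU.symm, map_mul, hY, ← hΔ, ← map_mul] at h1
    exact gg_eq.1 h1
  filter_upwards [hΔ0, hall] with m h1 h2
  have h3 := rc_of hs hpG hnc (U m) (inv_ne_zero h1)
  have h4 : (fun i => (Δ m)⁻¹ * (p i).eval (U m)) = x m := by
    funext i
    rw [h2, inv_mul_cancel_left₀ h1]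
  rwa [h4] at h3

/-- sequences over a function field with an endomorphism which is a lift of a polynomial -/
theorem per_fld_rc {s : Set (MvPolynomial (Fin (N + 1)) ℂ)} (hs : ∀ G ∈ s, ∃ d, G.IsHomogeneous d)
    (hess : Algebra.EssFiniteType ℂ K) (htd : Algebra.trdeg ℂ K ≤ 1)
    {τ : K} (hτ : Transcendental ℂ τ) {R : Polynomial ℂ} (hR : 2 ≤ R.natDegree)
    (hστ : σ τ = Polynomial.aeval τ R) {x : ℕ → Fin (N + 1) → ℂ} {Y : Fin (N + 1) → K}
    (hY : ∀ i, j (Y i) = gg fun m => x m i)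
    (hX : ∀ᶠ m in atTop, ∀ G ∈ s, eval (x m) G = 0)
    (hZ : ∀ᶠ m in atTop, ¬ RC s (x m)) : Per x := by
  by_cases hc : ∃ (v : K) (c : Fin (N + 1) → ℂ), ∀ i, Y i = algebraMap ℂ K (c i) * v
  · exact per_const hY hc
  exfalso
  have hff : IsFF ℂ K := by
    refine ⟨hess, le_antisymm htd ?_⟩
    by_contra hlt
    rw [not_le, Cardinal.lt_one_iff, _root_.trdeg_eq_zero_iff] at hlt
    exact hτ (hlt.isAlgebraic τ)
  have h0 := neg_of_endo σ hτ hR hστ
  obtain ⟨u, hu⟩ := rational_of_neg h0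
  have htr : Transcendental ℂ u := by
    intro halg
    have h1 : Algebra.IsAlgebraic ℂ K := by
      have h2 := IntermediateField.isAlgebraic_adjoin_simple halg.isIntegral
      rw [hu] at h2
      exact ⟨fun z => by
        have h3 := h2.isAlgebraic (⟨z, IntermediateField.mem_top⟩ : (⊤ : IntermediateField ℂ K))
        exact (isAlgebraic_algHom_iff (IntermediateField.val ⊤) Subtype.val_injective).2 h3⟩
    exact hτ (h1.isAlgebraic τ)
  obtain ⟨m, h1, h2⟩ := ((rat_rc hs htr hu hY hX hc).and hZ).exists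
  exact h2 h1

end

/-- sequences over a field of germs -/
theorem per_sub_rc {s : Set (MvPolynomial (Fin (N + 1)) ℂ)} (hs : ∀ G ∈ s, ∃ d, G.IsHomogeneous d)
    {T : Subalgebra ℂ GG} (hT : IsFld T)
    (hess : Algebra.EssFiniteType ℂ T) (htd : Algebra.trdeg ℂ T ≤ 1)
    {t : ℕ → ℂ} (htT : gg t ∈ T) (ht : Function.Injective t) {R : Polynomial ℂ}
    (hR : 2 ≤ R.natDegree) (htR : ∀ m, t (m + 1) = R.eval (t m))
    {x : ℕ → Fin (N + 1) → ℂ} (hY : ∀ i, (gg fun m => x m i) ∈ T)
    (hX : ∀ᶠ m in atTop, ∀ G ∈ s, eval (x m) G = 0)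
    (hZ : ∀ᶠ m in atTop, ¬ RC s (x m)) : Per x := by
  let _ : Field T := hT.isField.toField
  let σ : T →ₐ[ℂ] T :=
    { toFun := fun x => ⟨shG x, hT.1 x x.2⟩
      map_one' := Subtype.ext (map_one shG)
      map_mul' := fun x y => Subtype.ext (map_mul shG (x : GG) (y : GG))
      map_zero' := Subtype.ext (map_zero shG)
      map_add' := fun x y => Subtype.ext (map_add shG (x : GG) (y : GG))
      commutes' := fun c => Subtype.ext (by
        change shG (algebraMap ℂ GG c) = algebraMap ℂ GG c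
        rw [← gg.commutes c, shG_gg]
        rfl) }
  have hval : ∀ p : Polynomial ℂ, T.val (Polynomial.aeval (⟨gg t, htT⟩ : T) p) =
      gg fun m => p.eval (t m) := fun p => j_poly (j := T.val) (⟨gg t, htT⟩ : T) rfl p
  refine per_fld_rc (K := T) (j := T.val) (σ := σ) hs hess htd (τ := ⟨gg t, htT⟩) ?_ hR ?_
    (Y := fun i => ⟨_, hY i⟩) (fun i => rfl) hX hZ
  · rintro ⟨p, hp, h0⟩
    have h1 := hval p
    rw [h0, map_zero, eq_comm, gg_zero] at h1
    obtain ⟨m, h2, h3⟩ := (h1.and (ev_ne ht hp)).exists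
    exact h3 h2
  · apply Subtype.ext
    have h1 := hval R
    refine Eq.trans ?_ h1.symm
    change shG (gg t) = _
    rw [shG_gg]
    congr 1
    funext m
    exact htR m

theorem iter_eval {t : ℕ → ℂ} {ρ : Polynomial ℂ} (hρ : ∀ m, t (m + 1) = ρ.eval (t m)) (M m : ℕ) :
    t (m + M) = ((ρ.comp)^[M] Polynomial.X).eval (t m) := by
  rw [Polynomial.iterate_comp_eval, Polynomial.eval_X]
  induction M with
  | zero => rfl
  | succ M ih =>
    rw [Function.iterate_succ_apply', ← ih]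
    exact hρ (m + M)

/-- **Sequences with coefficients along an orbit of a polynomial of degree at least two.** -/
theorem good_pol {t : ℕ → ℂ} (ht : Function.Injective t) {ρ : Polynomial ℂ}
    (hρ : ∀ m, t (m + 1) = ρ.eval (t m)) (h2 : 2 ≤ ρ.natDegree)
    {s : Set (MvPolynomial (Fin (N + 1)) ℂ)} (hs : ∀ G ∈ s, ∃ d, G.IsHomogeneous d) :
    GoodR s (ratB t ht) := by
  classical
  have hB : CoefField (ratB t ht) := ratB_field ht ρ hρ
  have hess : Algebra.EssFiniteType ℂ (KB (ratB t ht) hB) := by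
    refine ess_of_finGen hB ⟨{t}, Set.finite_singleton t, ?_, ?_⟩
    · rw [Set.singleton_subset_iff]
      exact ⟨Polynomial.X, 1, one_ne_zero, Eventually.of_forall fun m => by
        rw [Polynomial.eval_X, Polynomial.eval_one, div_one]⟩
    · rintro b ⟨P, Q, hQ, hb⟩
      have hmem : ∀ p : Polynomial ℂ, (Polynomial.aeval t p : ℕ → ℂ) ∈
          Algebra.adjoin ℂ ({t} : Set (ℕ → ℂ)) := fun p => Polynomial.aeval_mem_adjoin_singleton _ _
      refine ⟨_, hmem P, _, hmem Q, ?_, ?_⟩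
      · filter_upwards [ev_ne ht hQ] with m hm
        rw [aeval_seq]
        exact hm
      · filter_upwards [hb, ev_ne ht hQ] with m h1 h2
        rw [aeval_seq, aeval_seq, h1, div_mul_cancel₀ _ h2]
  have htd : Algebra.trdeg ℂ (KB (ratB t ht) hB) ≤ 1 := trdeg_of_trLe hB (ratB_tr ht)
  have htB : t ∈ ratB t ht := ⟨Polynomial.X, 1, one_ne_zero, Eventually.of_forall fun m => by
    rw [Polynomial.eval_X, Polynomial.eval_one, div_one]⟩
  intro x hne hx hX hZ
  -- a linear form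
  obtain ⟨c, hc⟩ := exists_linear (fun m => if x m = 0 then fun _ => 1 else x m) (by
    intro m
    by_cases h0 : x m = 0
    · simp only [if_pos h0]
      intro h1
      exact one_ne_zero (congrFun h1 0)
    · simp only [if_neg h0]
      exact h0)
  let ℓ : MvPolynomial (Fin (N + 1)) ℂ := ∑ j : Fin (N + 1), C (c ^ (j : ℕ)) * X j
  have hℓ : ℓ.IsHomogeneous 1 := by
    refine IsHomogeneous.sum _ _ _ fun j _ => ?_
    have h2 := (isHomogeneous_C (Fin (N + 1)) (c ^ (j : ℕ))).mul (isHomogeneous_X ℂ j)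
    rwa [zero_add] at h2
  have hℓe : ∀ v : Fin (N + 1) → ℂ, eval v ℓ = ∑ j : Fin (N + 1), c ^ (j : ℕ) * v j := by
    intro v
    simp only [ℓ, map_sum, map_mul, eval_C, eval_X]
  have hℓx : ∀ᶠ m in atTop, eval (x m) ℓ ≠ 0 := by
    filter_upwards [hne] with m hm
    have h1 := hc m
    simp only [if_neg hm] at h1
    rw [hℓe]
    exact h1
  obtain ⟨t0, ht0⟩ := exists_rc hB hx hℓ hℓx (s := s) hs
    (fun G hG => hX.mono fun m hm => hm G hG)
  let y : Fin (N + 1) → ℕ → ℂ := fun j m => x (m + t0) j / eval (x (m + t0)) ℓ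
  have hℓt := eventually_shift hℓx t0
  have hint : ∀ j, IsIntegral (KB (ratB t ht) hB) (gg (y j)) := by
    intro j
    refine int_of_cf hB fun J hJ hJp => ?_
    have hdom : IsDomain ((ℕ → ℂ) ⧸ J) := Ideal.Quotient.isDomain J
    apply rel_of_cf hB hJ hJp (FractionRing ((ℕ → ℂ) ⧸ J))
    by_contra hcon
    obtain ⟨m, ⟨p, h1, h2, h3⟩, h6⟩ :=
      ((ht0 J hJ hJp (FractionRing ((ℕ → ℂ) ⧸ J)) j hcon).and_eventually
        (eventually_shift hZ t0)).exists
    exact h6 ⟨p, h1, h2, h3⟩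
  have hf : ∀ j, LF (KB (ratB t ht) hB) (gg fun m => x (m + t0) j) := fun j =>
    LF_of_linRec hB (LinRec.shift hB (hx j) t0)
  have hg : LF (KB (ratB t ht) hB) (gg fun m => eval (x (m + t0)) ℓ) := by
    have h1 : gg (fun m => eval (x (m + t0)) ℓ) = ∑ j : Fin (N + 1),
        algebraMap (KB (ratB t ht) hB) GG (cK hB ⟨_, (ratB t ht).algebraMap_mem (c ^ (j : ℕ))⟩) *
          gg fun m => x (m + t0) j := by
      simp only [alg_cK, ← map_mul]
      rw [← map_sum]
      congr 1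
      funext m
      rw [hℓe, Finset.sum_apply]
      rfl
    rw [h1]
    exact LF.sum (shK hB) (shG_alg hB) _ fun j _ =>
      (LF.alg (shK hB) (shG_alg hB) _).mul (hf j)
  obtain ⟨S, hyS, hst, hfin⟩ := exists_common hB (f := fun j => gg fun m => x (m + t0) j)
    (r := fun j => gg (y j)) (g := gg fun m => eval (x (m + t0)) ℓ) hf hg (ne_unit hℓt)
    (fun j => by
      rw [← map_mul, gg_eq]
      filter_upwards [hℓt] with m hm
      rw [Pi.mul_apply]
      exact mul_div_cancel₀ _ hm) hint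
  have hb : ∀ᶠ m in atTop, (eval (x (m + t0)) ℓ)⁻¹ ≠ 0 := by
    filter_upwards [hℓt] with m h2
    exact inv_ne_zero h2
  have htS : gg t ∈ S := by
    have h1 : gg t = algebraMap (KB (ratB t ht) hB) GG (cK hB ⟨t, htB⟩) := (alg_cK hB ⟨t, htB⟩).symm
    rw [h1]
    exact S.algebraMap_mem _
  refine Per.shift (t := t0) (Per.scale (b := fun m => (eval (x (m + t0)) ℓ)⁻¹) hb ?_)
  have hyi : ∀ i, (fun m => (eval (x (m + t0)) ℓ)⁻¹ * x (m + t0) i) = y i := by
    intro i
    funext m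
    change _ = x (m + t0) i / eval (x (m + t0)) ℓ
    rw [div_eq_mul_inv, mul_comm]
  have hne' : ∀ᶠ m in atTop, (fun i => (eval (x (m + t0)) ℓ)⁻¹ * x (m + t0) i) ≠ 0 := by
    filter_upwards [hb, eventually_shift hne t0] with m h1 h2 h3
    apply h2
    funext j
    have h4 := congrFun h3 j
    exact (mul_eq_zero.1 h4).resolve_left h1
  have hX' : ∀ᶠ m in atTop, ∀ G ∈ s,
      eval (fun i => (eval (x (m + t0)) ℓ)⁻¹ * x (m + t0) i) G = 0 := by
    filter_upwards [eventually_shift hX t0] with m h1 G hG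
    obtain ⟨d, hd⟩ := hs G hG
    rw [Pool.Agent.TH143.GT.eval_smul_homog hd, h1 G hG, mul_zero]
  have hZ' : ∀ᶠ m in atTop, ¬ RC s (fun i => (eval (x (m + t0)) ℓ)⁻¹ * x (m + t0) i) := by
    filter_upwards [hb, eventually_shift hZ t0] with m h1 h2 h3
    apply h2
    obtain ⟨p, h4, h5, h6⟩ := h3
    have h7 := rc_of hs h4 h6 1 (inv_ne_zero h1)
    have h8 : (fun j => ((eval (x (m + t0)) ℓ)⁻¹)⁻¹ * (p j).eval 1) = x (m + t0) := by
      funext j
      rw [congrFun h5 j, inv_mul_cancel_left₀ h1]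
    rwa [h8] at h7
  obtain ⟨M, hM, hp⟩ := exists_period hst hfin
  refine per_of_classes hne' hM fun a => ?_
  have hfld := Sa_fld hst hfin hM hp a
  obtain ⟨e1, e2⟩ := Sa_fg hfin hM a hfld hess htd
  refine per_sub_rc hs hfld e1 e2 (t := fun m => t (a + M * m)) ⟨gg t, htS, rfl⟩ ?_
    (R := (ρ.comp)^[M] Polynomial.X) ?_ ?_
    (x := fun m i => (eval (x (a + M * m + t0)) ℓ)⁻¹ * x (a + M * m + t0) i)
    (fun i => ⟨gg (y i), hyS i, ?_⟩) (ev_res hX' hM) (ev_res hZ' hM)
  · intro m m' h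
    have h1 := ht h
    have h3 : M * m = M * m' := by omega
    exact Nat.eq_of_mul_eq_mul_left hM h3
  · rw [Polynomial.natDegree_iterate_comp, Polynomial.natDegree_X, mul_one]
    calc 2 ≤ ρ.natDegree := h2
      _ = ρ.natDegree ^ 1 := (pow_one _).symm
      _ ≤ ρ.natDegree ^ M := Nat.pow_le_pow_right (by omega) hM
  · intro m
    have h1 := iter_eval hρ M (a + M * m)
    rw [← h1]
    congr 1
    ring
  · change resG a M hM (gg (y i)) = _
    rw [resG_gg, ← hyi i]

end Pool.Agent.Q309.PO
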