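import Pool.Agent.Q309.PO.Pla
import Pool.Agent.Y564.IL.Tay

/-!
Entire functions invariant under dilations, and entire curves over Poincare functions.
-/

set_option autoImplicit false

namespace Pool.Agent.Q309.PO

open MvPolynomial Filter Topology Metric Pool.Agent.Q309.DU

/-- a nonconstant entire function is not invariant under a dilation of infinite order -/
theorem dil_not_inv {t : ℂ → ℂ} (ht : Differentiable ℂ t) (hn : ∃ z w, t z ≠ t w) {μ : ℂ}
    (hμ : ∀ m : ℕ, 0 < m → μ ^ m ≠ 1) : ∃ z, t (μ * z) ≠ t z := by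
  by_contra hcon
  push Not at hcon
  obtain ⟨z, w, hzw⟩ := hn
  have han : AnalyticOnNhd ℂ t Set.univ := fun z _ => ht.analyticAt z
  have hT := Pool.Agent.Y564.IL.t_TAY 0
  have h1 : ∀ j : ℕ, 0 < j → iteratedDeriv j t 0 = 0 := by
    intro j hj
    have h2 := iteratedDeriv_comp_const_mul (n := j) (f := t) ht.contDiff μ
    have h3 : (fun x => t (μ * x)) = t := funext hcon
    rw [h3] at h2
    have h4 := congrFun h2 0
    beta_reduce at h4
    rw [mul_zero] at h4
    have h5 : (μ ^ j - 1) * iteratedDeriv j t 0 = 0 := by linear_combination -h4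
    exact (mul_eq_zero.1 h5).resolve_left (sub_ne_zero.2 (hμ j hj))
  have h6 : Pool.Agent.Y377.IL.tay 0 t = Pool.Agent.Y377.IL.tay 0 fun _ => t 0 := by
    ext j
    rw [Pool.Agent.Y564.IL.tay_coeff, Pool.Agent.Y564.IL.tay_coeff, iteratedDeriv_const]
    rcases Nat.eq_zero_or_pos j with rfl | hj
    · rw [iteratedDeriv_zero, if_pos rfl]
    · rw [h1 j hj, if_neg hj.ne']
  have h7 : Pool.Agent.Y377.IL.tay 0 (fun z => t z + (-t 0)) = 0 := by
    rw [(hT.2.1 t (fun _ => -t 0) (ht.analyticAt 0) analyticAt_const).1, h6,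
      ← (hT.2.1 (fun _ => t 0) (fun _ => -t 0) analyticAt_const analyticAt_const).1]
    have h8 : (fun _ : ℂ => t 0 + -t 0) = fun _ => (0 : ℂ) := by
      funext _
      exact add_neg_cancel _
    rw [h8, hT.1, map_zero]
  have h9 := hT.2.2.2.2 _ ((ht.analyticAt 0).add analyticAt_const) h7
  have h10 : ∀ y, t y + (-t 0) = 0 := fun y =>
    (AnalyticOnNhd.add han analyticOnNhd_const).eqOn_zero_of_preconnected_of_eventuallyEq_zero
      isPreconnected_univ (Set.mem_univ 0) h9 (Set.mem_univ y)
  apply hzw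
  linear_combination h10 z - h10 w

/-- a nonconstant entire function is not invariant under the iterates of a dilation of infinite
order -/
theorem dil_ord {lam : ℂ} (hlr : ∀ m : ℕ, 0 < m → lam ^ m ≠ 1) {t : ℂ → ℂ}
    (ht : Differentiable ℂ t) (htn : ∃ z w, t z ≠ t w) (k : ℕ) (hk : 0 < k) :
    ∃ z, t ((fun z => lam * z)^[k] z) ≠ t z := by
  simp only [mul_iter]
  exact dil_not_inv ht htn fun m hm => by
    rw [← pow_mul]
    exact hlr _ (Nat.mul_pos hk hm)

end Pool.Agent.Q309.PO
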