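import Pool.Agent.Q309.PO.Dom
import Pool.Agent.Q309.DF.Formal

/-!
Curves on the unit disc and formal curves given by Mahler equations.
-/

set_option autoImplicit false

namespace Pool.Agent.Q309.PO

open MvPolynomial Filter Topology Set Metric
open Pool.Agent.Q309.DU
open Pool.Agent.Q309.TP (Same)
open Pool.Agent.Q309.DF (FConst FF emb emb_inj emb_poly)
open Pool.Agent.Q1.SL

variable {n : ℕ}

/-- The nonconstant holomorphic curve with the homogeneous coordinates `h` on the unit disc lies in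
the projective variety of `S` and is given by `p`-Mahler equations: each coordinate satisfies a
nontrivial equation `∑ P_k(z) h_j(z^(p^k)) = 0` of order at most `r` with polynomials `P_k` of degree
at most `e`. -/
structure MahlerDisc (r e p : ℕ) (S : Set (MvPolynomial (Fin (n + 1)) ℂ))
    (h : ℂ → Fin (n + 1) → ℂ) : Prop where
  an : ∀ j, AnalyticOnNhd ℂ (fun z => h z j) (ball 0 1)
  on : ∀ F ∈ S, ∀ z ∈ ball (0 : ℂ) 1, eval (h z) F = 0
  eqn : ∀ j, ∃ P : ℕ → Polynomial ℂ, (∃ k ≤ r, P k ≠ 0) ∧ (∀ k, (P k).natDegree ≤ e) ∧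
    ∀ z ∈ ball (0 : ℂ) 1, ∑ k ∈ Finset.range (r + 1), (P k).eval z * h (z ^ p ^ k) j = 0
  nc : ∃ z ∈ ball (0 : ℂ) 1, ∃ w ∈ ball (0 : ℂ) 1, ∃ u v, h z u * h w v ≠ h z v * h w u

theorem mahler_core {r e p q B : ℕ} (hp : 2 ≤ p) (hpq : p ≤ q)
    {S : Set (MvPolynomial (Fin (n + 1)) ℂ)} {h : ℂ → Fin (n + 1) → ℂ} (H : MahlerDisc r e p S h)
    {G : MvPolynomial (Fin (n + 1)) ℂ}
    (huni : ∀ (t : ℕ → ℂ) (x : ℕ → Fin (n + 1) → ℂ), WSeq r e q S B t x →
      (∀ m ≤ B, eval (x m) G ≠ 0) → ∃ i j, i < j ∧ j ≤ B ∧ Same (x i) (x j)) :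
    ∀ z ∈ ball (0 : ℂ) 1, eval (h z) G = 0 := by
  by_contra hcon
  push Not at hcon
  have hne : ∃ z ∈ ball (0 : ℂ) 1, h z ≠ 0 := by
    obtain ⟨z, hz, w, hw, u, v, huv⟩ := H.nc
    refine ⟨z, hz, fun h0 => huv ?_⟩
    rw [h0, Pi.zero_apply, Pi.zero_apply, zero_mul, zero_mul]
  obtain ⟨k, hk, -, hper⟩ := dom_main (disc_dyn hp) (t := fun z => z) analyticOnNhd_id
    (ρ := Polynomial.X ^ p) ((Polynomial.natDegree_X_pow_le p).trans hpq)
    (fun z _ => by rw [Polynomial.eval_pow, Polynomial.eval_X]) (B := B)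
    (fun k hk _ => disc_ord hp hk) H.on H.an hne (fun j => by
      obtain ⟨P, h1, h2, h3⟩ := H.eqn j
      refine ⟨P, h1, h2, fun z hz => ?_⟩
      rw [← h3 z hz]
      exact Finset.sum_congr rfl fun k _ => by rw [iter_pow]) hcon huni
  obtain ⟨z, hz, w, hw, u, v, huv⟩ := H.nc
  exact huv (disc_const (P := p ^ k) ((by calc 2 ≤ p ^ 1 := by rw [pow_one]; exact hp
    _ ≤ p ^ k := Nat.pow_le_pow_right (by omega) hk)) H.an hne (fun z hz => by
      have h1 := hper z hz
      rwa [iter_pow] at h1) z hz w hw u v)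

/-- **Mahler discs**, uniformly in the variety. -/
theorem mahler_uniform (n D r e q : ℕ) : ∃ d : ℕ, ∀ S : Set (MvPolynomial (Fin (n + 1)) ℂ),
    (∀ F ∈ S, ∃ e, e ≤ D ∧ F.IsHomogeneous e) → ∀ p, 2 ≤ p → p ≤ q →
      ∀ h : ℂ → Fin (n + 1) → ℂ, MahlerDisc r e p S h →
        ∀ G : MvPolynomial (Fin (n + 1)) ℂ, (∃ e, e ≤ D ∧ G.IsHomogeneous e) → RatIn S G d →
          ∀ z ∈ ball (0 : ℂ) 1, eval (h z) G = 0 := by
  obtain ⟨d, hd⟩ := eq_uniform n D r e q
  exact ⟨d, fun S hS p hp hpq h H G hG hrat => mahler_core hp hpq H fun t x hx hx0 =>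
    hd S hS G hG hrat t x hx hx0⟩

/-- **Mahler discs**, for one variety. -/
theorem mahler_special (S : Set (MvPolynomial (Fin (n + 1)) ℂ))
    (hS : ∀ F ∈ S, ∃ e, F.IsHomogeneous e) (r e q : ℕ) : ∃ d : ℕ, ∀ p, 2 ≤ p → p ≤ q →
      ∀ h : ℂ → Fin (n + 1) → ℂ, MahlerDisc r e p S h →
        ∀ G : MvPolynomial (Fin (n + 1)) ℂ, (∃ e, G.IsHomogeneous e) → RatIn S G d →
          ∀ z ∈ ball (0 : ℂ) 1, eval (h z) G = 0 := by
  obtain ⟨d, hd⟩ := eq_special S hS r e q
  exact ⟨d, fun p hp hpq h H G hG hrat => mahler_core hp hpq H fun t x hx hx0 =>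
    hd G hG hrat t x hx hx0⟩

theorem ball_inf {f : Polynomial ℂ} (h : ∀ z ∈ ball (0 : ℂ) 1, f.eval z = 0) : f = 0 := by
  refine Polynomial.eq_zero_of_infinite_isRoot f ?_
  refine Set.Infinite.mono (fun z hz => h z hz) ?_
  exact (infinite_of_mem_nhds (0 : ℂ) (ball_mem_nhds 0 one_pos))

/-- rational curves are Mahler discs -/
theorem ratIn_of_mahler {S : Set (MvPolynomial (Fin (n + 1)) ℂ)}
    {G : MvPolynomial (Fin (n + 1)) ℂ} {p d : ℕ}
    (H : ∀ h : ℂ → Fin (n + 1) → ℂ, MahlerDisc 1 (d * p) p S h →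
      ∀ z ∈ ball (0 : ℂ) 1, eval (h z) G = 0) (hp : 1 ≤ p) : RatIn S G d := by
  intro f hf1 hf2 hf3
  have hev : ∀ (F : MvPolynomial (Fin (n + 1)) ℂ) (w : ℂ),
      (aeval f F).eval w = eval (fun j => (f j).eval w) F := fun F w => poly_eval f F w
  refine ball_inf fun z hz => ?_
  rw [hev]
  refine H (fun z j => (f j).eval z) ⟨fun j => fun w _ => (f j).differentiable.analyticAt w,
    fun F hF w _ => by rw [← hev, hf2 F hF, Polynomial.eval_zero], fun j => ?_, ?_⟩ z hz
  · by_cases h0 : f j = 0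
    · refine ⟨fun _ => 1, ⟨0, Nat.zero_le _, one_ne_zero⟩, fun k => by simp, fun w _ => ?_⟩
      refine Finset.sum_eq_zero fun k _ => ?_
      beta_reduce
      rw [h0, Polynomial.eval_zero, mul_zero]
    · refine ⟨fun k => if k = 0 then -((f j).comp (Polynomial.X ^ p)) else f j,
        ⟨1, le_rfl, by simpa using h0⟩, fun k => ?_, fun w _ => ?_⟩
      · by_cases hk : k = 0
        · simp only [if_pos hk]
          rw [Polynomial.natDegree_neg]
          exact Polynomial.natDegree_comp_le.trans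
            (Nat.mul_le_mul (hf1 j) (Polynomial.natDegree_X_pow_le p))
        · simp only [if_neg hk]
          exact (hf1 j).trans (Nat.le_mul_of_pos_right d hp)
      · rw [Finset.sum_range_succ, Finset.sum_range_one]
        beta_reduce
        rw [if_pos rfl, if_neg one_ne_zero, Polynomial.eval_neg, Polynomial.eval_comp,
          Polynomial.eval_pow, Polynomial.eval_X, pow_zero, pow_one, pow_one]
        ring
  · by_contra hcon
    push Not at hcon
    obtain ⟨s, t, i, j, hst⟩ := hf3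
    apply hst
    -- the identity holds everywhere
    have h1 : ∀ u v, ∀ z ∈ ball (0 : ℂ) 1, ∀ w : ℂ,
        (f u).eval z * (f v).eval w = (f v).eval z * (f u).eval w := by
      intro u v z hz w
      have h2 : Polynomial.C ((f u).eval z) * f v - Polynomial.C ((f v).eval z) * f u = 0 :=
        ball_inf fun w hw => by
          rw [Polynomial.eval_sub, Polynomial.eval_mul, Polynomial.eval_mul, Polynomial.eval_C,
            Polynomial.eval_C, hcon z hz w hw u v, sub_self]
      have h3 := congrArg (Polynomial.eval w) h2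
      rw [Polynomial.eval_sub, Polynomial.eval_mul, Polynomial.eval_mul, Polynomial.eval_C,
        Polynomial.eval_C, Polynomial.eval_zero] at h3
      exact sub_eq_zero.1 h3
    have h2 : Polynomial.C ((f j).eval t) * f i - Polynomial.C ((f i).eval t) * f j = 0 :=
      ball_inf fun z hz => by
        rw [Polynomial.eval_sub, Polynomial.eval_mul, Polynomial.eval_mul, Polynomial.eval_C,
          Polynomial.eval_C]
        have := h1 i j z hz t
        linear_combination this
    have h3 := congrArg (Polynomial.eval s) h2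
    rw [Polynomial.eval_sub, Polynomial.eval_mul, Polynomial.eval_mul, Polynomial.eval_C,
      Polynomial.eval_C, Polynomial.eval_zero] at h3
    linear_combination h3

/-! ### Formal curves -/

/-- The formal curve in the projective `n`-space with the homogeneous coordinates `x`, which are
formal power series, is given by `p`-Mahler equations `∑ P_k(z) x_j(z^(p^k)) = 0` of order at most
`r` with polynomials `P_k` of degree at most `e`, not all zero. -/
def MahlerForm (r e p : ℕ) (hp : p ≠ 0) (x : Fin (n + 1) → PowerSeries ℂ) : Prop :=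
  x ≠ 0 ∧ ∀ j, ∃ P : ℕ → Polynomial ℂ, (∃ k ≤ r, P k ≠ 0) ∧ (∀ k, (P k).natDegree ≤ e) ∧
    ∑ k ∈ Finset.range (r + 1), (P k : PowerSeries ℂ) *
      PowerSeries.expand (p ^ k) (pow_ne_zero k hp) (x j) = 0

theorem ord_fin {f : PowerSeries ℂ} (hf : f ≠ 0) : ∃ N : ℕ, f.order = N ∧
    PowerSeries.coeff N f ≠ 0 := by
  obtain ⟨N, hN⟩ := ENat.ne_top_iff_exists.1 (fun h => hf (PowerSeries.order_eq_top.1 h))
  exact ⟨N, hN.symm, (PowerSeries.order_eq_nat.1 hN.symm).1⟩

/-- invariant formal points are constant -/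
theorem fconst_of_expand {P : ℕ} (hP : 2 ≤ P) (hP0 : P ≠ 0) {x : Fin (n + 1) → PowerSeries ℂ}
    (hx : x ≠ 0) (h : ∀ u v, PowerSeries.expand P hP0 (x u) * x v =
      PowerSeries.expand P hP0 (x v) * x u) : FConst x := by
  classical
  obtain ⟨l, hl⟩ := Function.ne_iff.1 hx
  have hl' : x l ≠ 0 := hl
  obtain ⟨N, hN1, hN2⟩ := ord_fin hl'
  refine ⟨x l, fun j => PowerSeries.coeff N (x j) / PowerSeries.coeff N (x l), fun j => ?_⟩
  set c := PowerSeries.coeff N (x j) / PowerSeries.coeff N (x l) with hc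
  set y := x j - PowerSeries.C c * x l with hy
  have hyN : PowerSeries.coeff N y = 0 := by
    rw [hy, map_sub, PowerSeries.coeff_C_mul, hc, div_mul_cancel₀ _ hN2, sub_self]
  have hrel : PowerSeries.expand P hP0 y * x l = PowerSeries.expand P hP0 (x l) * y := by
    rw [hy, map_sub, map_mul, PowerSeries.expand_C]
    have h2 := h j l
    linear_combination h2
  by_contra hne
  have hy0 : y ≠ 0 := fun h0 => hne (sub_eq_zero.1 h0)
  obtain ⟨M, hM1, hM2⟩ := ord_fin hy0
  have h1 := congrArg PowerSeries.order hrel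
  rw [PowerSeries.order_mul, PowerSeries.order_mul, PowerSeries.order_expand,
    PowerSeries.order_expand, hN1, hM1] at h1
  have h2 : P * M + N = P * N + M := by
    have h3 : ((P * M + N : ℕ) : ℕ∞) = ((P * N + M : ℕ) : ℕ∞) := by
      push_cast
      simpa [nsmul_eq_mul] using h1
    exact_mod_cast h3
  have hMN : M = N := by
    obtain ⟨a, rfl⟩ : ∃ a, P = a + 2 := ⟨P - 2, by omega⟩
    have h4 : (a + 1) * M = (a + 1) * N := by nlinarith
    exact Nat.eq_of_mul_eq_mul_left (by omega) h4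
  rw [hMN] at hM2
  exact hM2 hyN

theorem mg_inj {p : ℕ} (hp : p ≠ 0) :
    Function.Injective (emb.comp (PowerSeries.expand p hp)) := by
  intro a b hab
  have h1 : emb (PowerSeries.expand p hp a) = emb (PowerSeries.expand p hp b) := hab
  have h2 := emb_inj h1
  ext i
  have h4 := congrArg (PowerSeries.coeff (p * i)) h2
  rwa [PowerSeries.coeff_expand_mul, PowerSeries.coeff_expand_mul] at h4

/-- the substitution of `z^p` in the field of Laurent series -/
noncomputable def mg {p : ℕ} (hp : p ≠ 0) : FF →ₐ[ℂ] FF := IsFractionRing.liftAlgHom (mg_inj hp)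

theorem mg_emb {p : ℕ} (hp : p ≠ 0) (f : PowerSeries ℂ) :
    mg hp (emb f) = emb (PowerSeries.expand p hp f) := by
  have h1 : mg hp (emb f) = (emb.comp (PowerSeries.expand p hp)) f := by
    unfold mg
    rw [IsFractionRing.liftAlgHom_apply]
    exact IsFractionRing.lift_algebraMap _ f
  rw [h1]
  rfl

theorem mg_pow {p : ℕ} (hp : p ≠ 0) (k : ℕ) (f : PowerSeries ℂ) :
    (mg hp ^ k) (emb f) = emb (PowerSeries.expand (p ^ k) (pow_ne_zero k hp) f) := by
  induction k with
  | zero =>
    simp only [pow_zero, PowerSeries.expand_one]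
    rfl
  | succ k ih =>
    have h1 := PowerSeries.expand_mul p hp (p ^ k) (pow_ne_zero k hp) f
    rw [pow_succ', AlgHom.mul_apply, ih, mg_emb, ← h1]
    simp only [pow_succ']

/-- **Formal curves are points over a difference field.** -/
theorem opt_of_form {r e p : ℕ} (hp : p ≠ 0) {x : Fin (n + 1) → PowerSeries ℂ}
    (h : MahlerForm r e p hp x) : OPt r e p (mg hp) (emb PowerSeries.X) fun j => emb (x j) := by
  obtain ⟨hx, h⟩ := h
  refine ⟨fun h0 => hx (funext fun j => emb_inj (by
    rw [congrFun h0 j, Pi.zero_apply, Pi.zero_apply, map_zero])),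
    ⟨Polynomial.X ^ p, Polynomial.natDegree_X_pow_le p, fun i => ?_, ?_⟩, fun j => ?_⟩
  · rw [Polynomial.coeff_X_pow]
    split_ifs
    · rw [map_one]
    · rw [map_zero]
  · rw [mg_emb, PowerSeries.expand_X, Polynomial.eval_pow, Polynomial.eval_X, map_pow]
  · obtain ⟨P, ⟨k0, hk0, hP0⟩, hPd, hP⟩ := h j
    refine ⟨fun k => (P k).map (algebraMap ℂ FF), ⟨k0, hk0, ?_⟩, fun k => ?_, fun k i => ?_, ?_⟩
    · rwa [Ne, Polynomial.map_eq_zero_iff (algebraMap ℂ FF).injective]
    · exact Polynomial.natDegree_map_le.trans (hPd k)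
    · rw [Polynomial.coeff_map]
      exact AlgHom.commutes _ _
    · have h1 := congrArg emb hP
      rw [map_zero, map_sum] at h1
      rw [← h1]
      refine Finset.sum_congr rfl fun k _ => ?_
      rw [emb_poly, mg_pow, map_mul]

theorem two_le_pow {p k : ℕ} (hp : 2 ≤ p) (hk : 0 < k) : 2 ≤ p ^ k := by
  calc 2 ≤ p ^ 1 := by rw [pow_one]; exact hp
    _ ≤ p ^ k := Nat.pow_le_pow_right (by omega) hk

theorem mform_aperiodic {p : ℕ} (hp2 : 2 ≤ p) (hp : p ≠ 0)
    {x : Fin (n + 1) → PowerSeries ℂ} (hx : x ≠ 0) {k : ℕ} (hk : 0 < k)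
    (h : ∀ u v, (mg hp ^ k) (emb (x u)) * emb (x v) = (mg hp ^ k) (emb (x v)) * emb (x u)) :
    FConst x := by
  refine fconst_of_expand (two_le_pow hp2 hk) (pow_ne_zero k hp) hx fun u v => emb_inj ?_
  rw [map_mul, map_mul, ← mg_pow hp, ← mg_pow hp]
  exact h u v

theorem mX_aperiodic {p : ℕ} (hp2 : 2 ≤ p) (hp : p ≠ 0) {k : ℕ} (hk : 0 < k) :
    (mg hp ^ k) (emb PowerSeries.X) ≠ emb PowerSeries.X := by
  intro h
  rw [mg_pow] at h
  have h1 := congrArg (PowerSeries.coeff 1) (emb_inj h)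
  rw [PowerSeries.coeff_one_X, PowerSeries.coeff_expand_of_not_dvd] at h1
  · exact zero_ne_one h1
  · intro h2
    have h3 := Nat.le_of_dvd one_pos h2
    have h4 := two_le_pow hp2 hk
    omega

theorem mform_core {r e p q d : ℕ} (hp2 : 2 ≤ p) (hp : p ≠ 0) (hpq : p ≤ q)
    {S : Set (MvPolynomial (Fin (n + 1)) ℂ)} {G : MvPolynomial (Fin (n + 1)) ℂ}
    (hd : ∀ (σ : FF →ₐ[ℂ] FF) (t : FF) (x : Fin (n + 1) → FF), OPt r e q σ t x →
      (∀ k, 0 < k → k ≤ d → (σ ^ k) t ≠ t) → (∀ F ∈ S, aeval x F = 0) →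
      (∃ k, 0 < k ∧ k ≤ d ∧ ∀ u v, (σ ^ k) (x u) * x v = (σ ^ k) (x v) * x u) ∨ aeval x G = 0)
    {x : Fin (n + 1) → PowerSeries ℂ} (hx : MahlerForm r e p hp x)
    (hX : ∀ F ∈ S, aeval x F = 0) (hc : ¬ FConst x) : aeval x G = 0 := by
  have hev : ∀ F : MvPolynomial (Fin (n + 1)) ℂ, aeval (fun j => emb (x j)) F =
      emb (aeval x F) := fun F => (MvPolynomial.comp_aeval_apply (f := x) emb F).symm
  have ho := opt_of_form hp hx
  have ho' : OPt r e q (mg hp) (emb PowerSeries.X) fun j => emb (x j) := by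
    obtain ⟨ρ, h1, h2, h3⟩ := ho.pol
    exact ⟨ho.ne, ⟨ρ, h1.trans hpq, h2, h3⟩, ho.eqn⟩
  rcases hd (mg hp) (emb PowerSeries.X) (fun j => emb (x j)) ho'
    (fun k hk _ => mX_aperiodic hp2 hp hk) (fun F hF => by rw [hev, hX F hF, map_zero]) with
    ⟨k, hk, -, h1⟩ | h2
  · exact absurd (mform_aperiodic hp2 hp hx.1 hk h1) hc
  · rw [hev] at h2
    exact emb_inj (h2.trans (map_zero _).symm)

/-- rational curves are formal curves given by Mahler equations -/
theorem ratIn_of_mform {S : Set (MvPolynomial (Fin (n + 1)) ℂ)}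
    {G : MvPolynomial (Fin (n + 1)) ℂ} {p d : ℕ} (hp : p ≠ 0)
    (h : ∀ x : Fin (n + 1) → PowerSeries ℂ, MahlerForm 1 (d * p) p hp x →
      (∀ F ∈ S, aeval x F = 0) → ¬ FConst x → aeval x G = 0) : RatIn S G d := by
  classical
  intro f hf1 hf2 hf3
  let co : Polynomial ℂ →ₐ[ℂ] PowerSeries ℂ := Polynomial.coeToPowerSeries.algHom ℂ
  have hco : ∀ P : Polynomial ℂ, co P = (P : PowerSeries ℂ) := by
    intro P
    change Polynomial.coeToPowerSeries.algHom ℂ P = _
    rw [Polynomial.coeToPowerSeries.algHom_apply]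
    ext i
    simp
  have hcoinj : Function.Injective co := by
    intro a b hab
    rw [hco, hco] at hab
    exact Polynomial.coe_injective ℂ hab
  have hev : ∀ F : MvPolynomial (Fin (n + 1)) ℂ, aeval (fun j => (f j : PowerSeries ℂ)) F =
      co (aeval f F) := by
    intro F
    rw [MvPolynomial.comp_aeval_apply]
    exact congrArg (fun w => aeval w F) (funext fun j => (hco (f j)).symm)
  have hexp : ∀ P : Polynomial ℂ, PowerSeries.expand p hp (P : PowerSeries ℂ) =
      ((P.comp (Polynomial.X ^ p) : Polynomial ℂ) : PowerSeries ℂ) := by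
    intro P
    induction P using Polynomial.induction_on' with
    | add a b ha hb => rw [Polynomial.coe_add, map_add, ha, hb, Polynomial.add_comp,
        Polynomial.coe_add]
    | monomial k a =>
      rw [Polynomial.coe_monomial, PowerSeries.expand_monomial, Polynomial.monomial_comp,
        Polynomial.coe_mul, Polynomial.coe_C, ← pow_mul, Polynomial.coe_pow, Polynomial.coe_X,
        PowerSeries.monomial_eq_C_mul_X_pow]
  obtain ⟨s, t, i, j, hst⟩ := hf3
  have h1 := h (fun j => (f j : PowerSeries ℂ)) ⟨fun h0 => ?_, fun j => ?_⟩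
    (fun F hF => by rw [hev, hf2 F hF, map_zero]) ?_
  · rw [hev] at h1
    exact hcoinj (h1.trans (map_zero _).symm)
  · apply hst
    have h2 : ∀ l, f l = 0 := fun l => Polynomial.coe_injective ℂ (by
      rw [Polynomial.coe_zero]
      exact congrFun h0 l)
    rw [h2 i, h2 j, Polynomial.eval_zero, Polynomial.eval_zero]
  · -- the equation
    by_cases h0 : f j = 0
    · refine ⟨fun _ => 1, ⟨0, Nat.zero_le _, one_ne_zero⟩, fun k => by simp, ?_⟩
      refine Finset.sum_eq_zero fun k _ => ?_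
      beta_reduce
      rw [h0, Polynomial.coe_zero, map_zero, mul_zero]
    · refine ⟨fun k => if k = 0 then -((f j).comp (Polynomial.X ^ p)) else f j,
        ⟨1, le_rfl, by simpa using h0⟩, fun k => ?_, ?_⟩
      · by_cases hk : k = 0
        · simp only [if_pos hk]
          rw [Polynomial.natDegree_neg]
          exact Polynomial.natDegree_comp_le.trans
            (Nat.mul_le_mul (hf1 j) (Polynomial.natDegree_X_pow_le p))
        · simp only [if_neg hk]
          exact (hf1 j).trans (Nat.le_mul_of_pos_right d (Nat.pos_of_ne_zero hp))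
      · rw [Finset.sum_range_succ, Finset.sum_range_one]
        beta_reduce
        simp only [if_pos, if_neg one_ne_zero, Polynomial.coe_neg, pow_zero, pow_one,
          PowerSeries.expand_one, AlgHom.id_apply]
        rw [hexp]
        ring
  · rintro ⟨g, c, hgc⟩
    beta_reduce at hgc
    apply hst
    have h2 : ∀ a b, Polynomial.C (c a) * f b = Polynomial.C (c b) * f a := by
      intro a b
      apply Polynomial.coe_injective ℂ
      rw [Polynomial.coe_mul, Polynomial.coe_mul, Polynomial.coe_C, Polynomial.coe_C, hgc, hgc]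
      ring
    by_cases hc : c j = 0
    · have h3 : f j = 0 := by
        apply Polynomial.coe_injective ℂ
        rw [hgc, hc, map_zero, zero_mul, Polynomial.coe_zero]
      rw [h3, Polynomial.eval_zero, Polynomial.eval_zero]
      ring
    · have h3 := fun w => congrArg (Polynomial.eval w) (h2 j i)
      simp only [Polynomial.eval_mul, Polynomial.eval_C] at h3
      apply mul_left_cancel₀ hc
      linear_combination (f j).eval t * h3 s - (f j).eval s * h3 t

end Pool.Agent.Q309.PO
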