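import Pool.Agent.Y221.AH.Sum
import Pool.Agent.TH143.GE.Gap
import Pool.Agent.TH145.GH.Coprime

/-!
Function fields of one variable with an endomorphism which maps a nonconstant function to a
polynomial of degree at least two of it: the genus is zero.
-/

set_option autoImplicit false

namespace Pool.Agent.Q309.PO

open FF Pool.Agent.W603.LV Pool.Agent.W603.PV Pool.Agent.TH143.GE
open Pool.Agent.Y221.AH (sum_over)
open Pool.Agent.TH145.GH (ord_aeval_pole)

section

variable {k : Type} [Field k] [IsAlgClosed k] [CharZero k]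
  {F : Type} [Field F] [Algebra k F] [IsFF k F] {L : Type} [Field L] [Algebra k L]
  [Algebra F L] [IsScalarTower k F L] [IsFF k L]

theorem fin_dim (k F L : Type) [Field k] [Field F] [Algebra k F] [IsFF k F] [Field L] [Algebra k L]
    [Algebra F L] [IsScalarTower k F L] [IsFF k L] : FiniteDimensional F L := by
  have h1 := alg_of_ff k F L
  have h2 := IsFF.ess (k := k) (K := L)
  have h3 : Algebra.EssFiniteType F L := Algebra.EssFiniteType.of_comp k F L
  obtain ⟨s, hs⟩ := IntermediateField.fg_top F L
  have h5 : FiniteDimensional F (IntermediateField.adjoin F (s : Set L)) :=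
    IntermediateField.finiteDimensional_adjoin (fun x _ => (h1.isAlgebraic x).isIntegral)
  rw [hs] at h5
  exact IntermediateField.topEquiv.toLinearEquiv.finiteDimensional

/-- Riemann-Hurwitz. -/
theorem rh [FiniteDimensional F L] :
    canDeg k L = disc k F L + Module.finrank F L * canDeg k F := by
  classical
  have hF : CharZero F := charZero_of_injective_algebraMap (algebraMap k F).injective
  obtain ⟨D, hD⟩ := exists_der (k := k) (K := F)
  obtain ⟨D', hDD'⟩ := exists_ext_der (L := L) D
  have hD' : D' ≠ 0 := by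
    rintro rfl
    apply hD
    ext x
    have := hDD' x
    rw [Derivation.coe_zero, Pi.zero_apply, eq_comm, map_eq_zero] at this
    rw [this]; rfl
  obtain ⟨V, hV⟩ : ∃ V : Finset (Place k F), V = (vo_finite hD).toFinset := ⟨_, rfl⟩
  have hVmem : ∀ v, vo v D ≠ 0 → v ∈ V := fun v hv => by simp [hV, hv]
  obtain ⟨T, hT⟩ : ∃ T : Finset (Place k L), T = (vo_finite hD').toFinset ∪
    (ram_finite (F := F)).toFinset ∪ (finite_over_set (L := L) (Finset.finite_toSet V)).toFinset :=
    ⟨_, rfl⟩
  have h1 := canDeg_finset hD' T fun P hP => by simp [hT, hP]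
  have h2 : disc k F L = ∑ P ∈ T, ((ram F P : ℤ) - 1) := by
    unfold disc
    rw [finsum_eq_sum_of_support_subset (s := T)]
    intro P hP
    have hP' : (ram F P : ℤ) - 1 ≠ 0 := hP
    simp only [hT, Finset.coe_union, Set.Finite.coe_toFinset, Set.mem_union, Set.mem_ofPred_eq]
    exact Or.inl (Or.inr hP')
  have h3 : canDeg k L = ∑ P ∈ T, ((ram F P : ℤ) - 1) -
      ∑ P ∈ T, (ram F P : ℤ) * vo (under F P) D := by
    rw [← Finset.sum_sub_distrib]
    have h4 : canDeg k L = - ∑ P ∈ T, vo P D' := by rw [h1, neg_neg]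
    rw [h4, ← Finset.sum_neg_distrib]
    refine Finset.sum_congr rfl fun P _ => ?_
    rw [vo_under hD hD' hDD' P]
    ring
  have h4 := sum_over (L := L) (fun v => vo v D) V hVmem T fun w hw => by
    rw [hT]
    simp only [Finset.mem_union, Set.Finite.mem_toFinset]
    exact Or.inr hw
  have h5 := canDeg_finset hD V hVmem
  rw [h3, h2, h4, h5]
  ring

/-- The discriminant is at least its part over a finite set of places. -/
theorem disc_ge [FiniteDimensional F L] (T : Finset (Place k L)) :
    ∑ P ∈ T, ((ram F P : ℤ) - 1) ≤ disc k F L := by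
  classical
  unfold disc
  rw [finsum_eq_sum_of_support_subset (s := (ram_finite (k := k) (F := F) (L := L)).toFinset ∪ T)]
  · refine Finset.sum_le_sum_of_subset_of_nonneg Finset.subset_union_right fun P _ _ => ?_
    have := (ram_spec (F := F) P).1
    have h2 : (1 : ℤ) ≤ ram F P := by exact_mod_cast this
    linarith
  · intro P hP
    have hP' : (ram F P : ℤ) - 1 ≠ 0 := hP
    rw [Finset.mem_coe, Finset.mem_union, Set.Finite.mem_toFinset]
    exact Or.inl hP'

theorem reg_poly (P : Place k L) {t : L} (ht : 0 ≤ P.ord t) (p : Polynomial k) :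
    0 ≤ P.ord (Polynomial.aeval t p) := by
  have h1 : Ge P 0 (Polynomial.aeval t p) := by
    rw [Polynomial.aeval_eq_sum_range]
    refine Ge.sum _ _ fun i _ => ?_
    rw [Algebra.smul_def]
    have h2 : Ge P 0 t := Or.inr ht
    have h3 := (Ge.const (P := P) (p.coeff i)).mul (h2.pow i)
    refine h3.mono ?_
    simp
  rcases h1 with h1 | h1
  · rw [h1, P.ord_zero]
  · exact h1

theorem neg_core (e : Place k F ≃ Place k L) {t : F} {t' : L} (he : ∀ P, (e P).ord t' = P.ord t)
    {R : Polynomial k} (hR : 2 ≤ R.natDegree) (h : algebraMap F L t = Polynomial.aeval t' R)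
    (hc : canDeg k L = canDeg k F) (htr : Transcendental k t') : canDeg k F < 0 := by
  classical
  have hfd : FiniteDimensional F L := fin_dim k F L
  have hR0 : R ≠ 0 := by
    rintro rfl
    rw [Polynomial.natDegree_zero] at hR
    omega
  have hfin : {P : Place k L | P.ord t' < 0}.Finite :=
    (finite_support (k := k) t').subset fun P hP => ne_of_lt hP
  obtain ⟨T, hT⟩ : ∃ T : Finset (Place k L), ∀ P, P ∈ T ↔ P.ord t' < 0 :=
    ⟨hfin.toFinset, fun P => Set.Finite.mem_toFinset hfin⟩
  obtain ⟨S, hS⟩ : ∃ S : Finset (Place k F), S = T.map e.symm.toEmbedding := ⟨_, rfl⟩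
  have hSmem : ∀ v, v ∈ S ↔ v.ord t < 0 := by
    intro v
    rw [hS, Finset.mem_map_equiv, Equiv.symm_symm, hT, he]
  have hcard : S.card = T.card := by rw [hS, Finset.card_map]
  have hover : ∀ w : Place k L, under F w ∈ S ↔ w ∈ T := by
    intro w
    have h0 : (0 : ℤ) < ram F w := by exact_mod_cast (ram_spec (F := F) w).1
    have h1 := ord_under (F := F) w t
    rw [h] at h1
    rw [hSmem, hT]
    constructor
    · intro h2
      by_contra h3
      push Not at h3
      have h4 := reg_poly w h3 R
      rw [h1] at h4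
      nlinarith
    · intro h2
      have h3 := (ord_aeval_pole w h2 R hR0).2
      rw [h3] at h1
      by_contra h4
      push Not at h4
      have h5 : (2 : ℤ) ≤ R.natDegree := by exact_mod_cast hR
      nlinarith [mul_nonneg h0.le h4]
  have hTne : T.Nonempty := by
    by_contra hcon
    rw [Finset.not_nonempty_iff_eq_empty] at hcon
    obtain ⟨c, hc⟩ := const_of_ord (k := k) (f := t') fun P => by
      by_contra h1
      push Not at h1
      have h2 := (hT P).2 h1
      rw [hcon] at h2
      exact absurd h2 (Finset.notMem_empty P)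
    apply htr
    rw [hc]
    exact isAlgebraic_algebraMap c
  -- the degree
  have hd : (R.natDegree : ℤ) = Module.finrank F L := by
    have h1 := sum_over (L := L) (fun v : Place k F => if v ∈ S then v.ord t else 0) S
      (fun v hv => by
        by_contra h2
        exact hv (if_neg h2)) T (fun w hw => (hover w).1 hw)
    have h2 : ∑ w ∈ T, (ram F w : ℤ) * (if under F w ∈ S then (under F w).ord t else 0) =
        R.natDegree * ∑ w ∈ T, w.ord t' := by
      rw [Finset.mul_sum]
      refine Finset.sum_congr rfl fun w hw => ?_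
      rw [if_pos ((hover w).2 hw), ← ord_under, h, (ord_aeval_pole w ((hT w).1 hw) R hR0).2]
    have h3 : ∑ v ∈ S, (if v ∈ S then v.ord t else 0) = ∑ w ∈ T, w.ord t' := by
      rw [Finset.sum_congr rfl fun v hv => if_pos hv, hS, Finset.sum_map]
      refine Finset.sum_congr rfl fun w _ => ?_
      change (e.symm w).ord t = _
      rw [← he, Equiv.apply_symm_apply]
    rw [h2, h3] at h1
    have h4 : ∑ w ∈ T, w.ord t' < 0 := Finset.sum_neg (fun w hw => (hT w).1 hw) hTne
    exact mul_right_cancel₀ (ne_of_lt h4) h1
  have h1 := sum_over (L := L) (fun v : Place k F => if v ∈ S then (1 : ℤ) else 0) S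
    (fun v hv => by
      by_contra h2
      exact hv (if_neg h2)) T (fun w hw => (hover w).1 hw)
  have h2 : ∑ w ∈ T, (ram F w : ℤ) * (if under F w ∈ S then (1 : ℤ) else 0) =
      ∑ w ∈ T, ((ram F w : ℤ) - 1) + T.card := by
    rw [Finset.card_eq_sum_ones]
    push_cast
    rw [← Finset.sum_add_distrib]
    refine Finset.sum_congr rfl fun w hw => ?_
    rw [if_pos ((hover w).2 hw)]
    ring
  have h3 : ∑ v ∈ S, (if v ∈ S then (1 : ℤ) else 0) = T.card := by
    rw [Finset.sum_congr rfl fun v hv => if_pos hv, Finset.sum_const, nsmul_eq_mul, mul_one, hcard]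
  rw [h2, h3] at h1
  have h4 := disc_ge (k := k) (F := F) T
  have h5 := rh (k := k) (F := F) (L := L)
  rw [hc] at h5
  have h6 : (1 : ℤ) ≤ T.card := by exact_mod_cast hTne.card_pos
  have h7 : (2 : ℤ) ≤ Module.finrank F L := by
    rw [← hd]
    exact_mod_cast hR
  by_contra hcon
  push Not at hcon
  nlinarith [mul_nonneg (by linarith : (0 : ℤ) ≤ Module.finrank F L - 1) hcon,
    mul_nonneg (by linarith : (0 : ℤ) ≤ Module.finrank F L - 2) (by linarith : (0 : ℤ) ≤ T.card)]

end

/-- **Lifts of polynomials.** If an endomorphism of a function field of one variable maps a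
nonconstant function to a polynomial of degree at least two of it, then the genus is zero. -/
theorem neg_of_endo {k K : Type} [Field k] [IsAlgClosed k] [CharZero k] [Field K] [Algebra k K]
    [IsFF k K] (s : K →ₐ[k] K) {t : K} (ht : Transcendental k t) {R : Polynomial k}
    (hR : 2 ≤ R.natDegree) (h : s t = Polynomial.aeval t R) : canDeg k K < 0 :=
  @neg_core k _ _ _ K _ _ _ K _ _ (s : K →+* K).toAlgebra
    (@IsScalarTower.mk k K K _ (s : K →+* K).toAlgebra.toSMul _ (fun a b x => by
      change s (a • b) * x = a • (s b * x)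
      rw [map_smul, smul_mul_assoc])) _ (Equiv.refl _) t t (fun _ => rfl) R hR h rfl ht

end Pool.Agent.Q309.PO
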